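import Mathlib
import Pool.Agent.Lib.AC0IP.Defs
import Pool.Agent.Lib.AC0IP.Sens

/-!
# Interactive proofs whose verifiers are small de Morgan formulas: definitions

A de Morgan formula is a tree of AND and OR gates of fan-in two whose leaves are constants and
literals; its size is the number of leaves that are literals.
-/

set_option autoImplicit false

namespace Pool.Agent.FIP

open Pool.Agent.AC0IP

/-- De Morgan formulas: constants, literals (`lit i b` is true if `x i = b`), and gates of fan-in
two (`gate s p q` is the AND of `p` and `q` if `s` is true and their OR if `s` is false). -/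
inductive Fm (ι : Type) : Type
  | const (b : Bool) : Fm ι
  | lit (i : ι) (b : Bool) : Fm ι
  | gate (s : Bool) (p q : Fm ι) : Fm ι

/-- The AND of two bits if `s` is true, the OR if `s` is false. -/
def op (s a b : Bool) : Bool := if s then a && b else a || b

namespace Fm

variable {ι : Type}

/-- The number of leaves that are literals. -/
def size : Fm ι → ℕ
  | const _ => 0
  | lit _ _ => 1
  | gate _ p q => p.size + q.size

/-- The value of a formula at the input `x`. -/
def eval (x : ι → Bool) : Fm ι → Bool
  | const b => b
  | lit i b => x i == b
  | gate s p q => op s (p.eval x) (q.eval x)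

end Fm

/-- For all coins and all lists `h` of answers, the bits of the messages that may depend on the
input and the verdict are computed, as functions of the input, by de Morgan formulas, such that
the sizes of the formulas used during one interaction (all coins `ω`, all lists `h` of `V.len`
answers, latest first) add up to at most `S`. -/
def FormulaSmall {ι : Type} (V : Verifier ι) (S : ℕ) : Prop :=
  ∃ φ ψ : V.Coin → List Bool → Fm ι,
    (∀ ω h x, (φ ω h).eval x = V.ask ω h x) ∧ (∀ ω h x, (ψ ω h).eval x = V.verdict ω h x) ∧
    ∀ ω h, h.length = V.len →
      (ψ ω h).size + ∑ j ∈ Finset.range V.len, (φ ω (h.drop (j + 1))).size ≤ S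

/-! ### Auxiliary notions used in the proof -/

variable {ι : Type}

/-- `g` has a formula of size at most `s`. -/
def FS (g : BF ι) (s : ℕ) : Prop := ∃ φ : Fm ι, φ.size ≤ s ∧ ∀ x, φ.eval x = g x

open Classical in
/-- The formula size of `g` (zero if there is no formula). -/
noncomputable def L (g : BF ι) : ℕ := sInf {s | FS g s}

/-- The restriction `v = b` of `g`. -/
def rs [DecidableEq ι] (g : BF ι) (v : ι) (b : Bool) : BF ι :=
  fun x => g (Function.update x v b)

/-- The restriction of `g` to the variables in `N`, the others being fixed as in `x`. -/
def res [DecidableEq ι] (g : BF ι) (N : Finset ι) (x : ι → Bool) : BF ι :=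
  fun z => g (fun i => if i ∈ N then z i else x i)

end Pool.Agent.FIP
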