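import Pool.Agent.Lib.FIP.Tail

/-!
# Families of formulas; composition with projections
-/

set_option autoImplicit false

namespace Pool.Agent.FIP

open Pool.Agent.AC0IP

namespace Fm

variable {ι : Type}

/-- De Morgan dual. -/
def neg : Fm ι → Fm ι
  | const b => const (!b)
  | lit i b => lit i (!b)
  | gate s p q => gate (!s) p.neg q.neg

theorem size_neg (φ : Fm ι) : φ.neg.size = φ.size := by
  induction φ with
  | const b => rfl
  | lit i b => rfl
  | gate s p q hp hq => simp only [neg, size, hp, hq]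

theorem eval_neg (x : ι → Bool) (φ : Fm ι) : φ.neg.eval x = !φ.eval x := by
  induction φ with
  | const b => rfl
  | lit i b =>
    simp only [neg, eval]
    cases x i <;> cases b <;> rfl
  | gate s p q hp hq =>
    simp only [neg, eval, hp, hq]
    cases s <;> cases p.eval x <;> cases q.eval x <;> rfl

end Fm

variable {ι : Type}

theorem FS_eq {g : BF ι} {s : ℕ} (h : FS g s) (b : Bool) : FS (fun x => g x == b) s := by
  obtain ⟨φ, h1, h2⟩ := h
  cases b
  · refine ⟨φ.neg, by rw [φ.size_neg]; exact h1, fun x => ?_⟩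
    rw [Fm.eval_neg, h2]
    simp only
    cases g x <;> rfl
  · refine ⟨φ, h1, fun x => ?_⟩
    rw [h2]
    simp only
    cases g x <;> rfl

open Classical in
/-- Conjunction of conditions `out j = b j`. -/
noncomputable def cj {J : Type} (out : J → BF ι) (b : J → Bool) (T : Finset J) : BF ι :=
  fun x => if ∀ j ∈ T, out j x = b j then true else false

theorem cj_true {J : Type} (out : J → BF ι) (b : J → Bool) (T : Finset J) (x : ι → Bool) :
    cj out b T x = true ↔ ∀ j ∈ T, out j x = b j := by
  unfold cj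
  split_ifs with h
  · exact ⟨fun _ => h, fun _ => rfl⟩
  · exact ⟨fun h1 => absurd h1 (by decide), fun h1 => absurd h1 h⟩

theorem mem_sens [Fintype ι] [DecidableEq ι] {K : Type} (out : K → BF ι) (x : ι → Bool)
    (i : ι) : i ∈ SensSet out x ↔ ∃ j, out j (AC0IP.flip x i) ≠ out j x := by
  classical
  unfold SensSet
  rw [Finset.mem_filter]
  simp

theorem FS_conj {J : Type} [DecidableEq J] (out : J → BF ι) (s : J → ℕ)
    (h : ∀ j, FS (out j) (s j)) (b : J → Bool) (T : Finset J) :
    FS (cj out b T) (∑ j ∈ T, s j) := by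
  induction T using Finset.induction_on with
  | empty =>
    refine ⟨Fm.const true, le_rfl, fun x => ?_⟩
    symm
    exact (cj_true out b ∅ x).2 (by simp)
  | insert j T hj ih =>
    rw [Finset.sum_insert hj]
    have h1 := FS_op true (FS_eq (h j) (b j)) ih
    obtain ⟨φ, h2, h3⟩ := h1
    refine ⟨φ, h2, fun x => ?_⟩
    rw [h3]
    simp only [op, if_true]
    rw [Bool.eq_iff_iff, cj_true, Bool.and_eq_true, cj_true]
    simp

/-- Tail bound for the joint sensitivity. -/
theorem tail_joint [Fintype ι] [DecidableEq ι] (K : ℕ) (out : Fin K → BF ι) (s : Fin K → ℕ)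
    (hs : ∀ j, FS (out j) (s j)) (S : ℕ) (hS0 : ∑ j, s j ≤ S)
    (l h r : ℕ) (hl : 1 ≤ l) (hh : 3 ≤ h)
    (hr : h ≤ r) (hrn : r ≤ Fintype.card ι) (hlr : 3 + 5 * l * h ≤ r) (θ φ : ℝ) (hθ : 0 < θ)
    (hS : Real.exp 2 * ((S : ℝ) ^ 2 * r) ≤ θ ^ 2 * (Fintype.card ι : ℝ) ^ 3) (D : ℕ)
    (hD : φ * Fintype.card ι ≤ D) (hφ : 0 ≤ φ - 4 / h * Real.log (1 + S) - θ) :
    ((Finset.univ.filter (fun x : ι → Bool => D ≤ (SensSet out x).card)).card : ℝ) *
      (φ - 4 / h * Real.log (1 + S) - θ) ≤
      2 ^ K * (2 ^ Fintype.card ι * Real.exp (-l)) := by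
  classical
  set A := Finset.univ.filter (fun x : ι → Bool => D ≤ (SensSet out x).card) with hA
  have hcov : A.card ≤ ∑ b : Fin K → Bool, (A.filter (fun x => ∀ j, out j x = b j)).card := by
    have h1 : A ⊆ (Finset.univ : Finset (Fin K → Bool)).biUnion
        (fun b => A.filter (fun x => ∀ j, out j x = b j)) := by
      intro x hx
      rw [Finset.mem_biUnion]
      exact ⟨fun j => out j x, Finset.mem_univ _, Finset.mem_filter.2 ⟨hx, fun j => rfl⟩⟩
    exact (Finset.card_le_card h1).trans Finset.card_biUnion_le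
  have hb : ∀ b : Fin K → Bool, ((A.filter (fun x => ∀ j, out j x = b j)).card : ℝ) *
      (φ - 4 / h * Real.log (1 + S) - θ) ≤ 2 ^ Fintype.card ι * Real.exp (-l) := by
    intro b
    have hFS : FS (cj out b Finset.univ) S := by
      obtain ⟨φ', h1, h2⟩ := FS_conj out s hs b Finset.univ
      exact ⟨φ', h1.trans hS0, h2⟩
    apply tail_one _ S hFS l h r hl hh hr hrn hlr θ φ hθ hS
    intro x hx
    obtain ⟨hxA, hxb⟩ := Finset.mem_filter.1 hx
    have hxD := (Finset.mem_filter.1 hxA).2
    refine ⟨SensSet out x, ?_, ?_⟩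
    · exact hD.trans (by exact_mod_cast hxD)
    · intro i hi
      obtain ⟨j, hj⟩ := (mem_sens out x i).1 hi
      have h1 : cj out b Finset.univ x = true :=
        (cj_true out b Finset.univ x).2 fun j _ => hxb j
      intro h2
      rw [h1] at h2
      have h3 := (cj_true out b Finset.univ _).1 h2 j (Finset.mem_univ j)
      apply hj
      rw [h3, hxb j]
  calc (A.card : ℝ) * (φ - 4 / h * Real.log (1 + S) - θ)
      ≤ (∑ b : Fin K → Bool, ((A.filter (fun x => ∀ j, out j x = b j)).card : ℝ)) *
        (φ - 4 / h * Real.log (1 + S) - θ) := by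
        apply mul_le_mul_of_nonneg_right _ hφ
        exact_mod_cast hcov
    _ = ∑ b : Fin K → Bool, ((A.filter (fun x => ∀ j, out j x = b j)).card : ℝ) *
        (φ - 4 / h * Real.log (1 + S) - θ) := by rw [Finset.sum_mul]
    _ ≤ ∑ _b : Fin K → Bool, 2 ^ Fintype.card ι * Real.exp (-l) :=
        Finset.sum_le_sum (fun b _ => hb b)
    _ = _ := by
        rw [Finset.sum_const, Finset.card_univ, Fintype.card_fun, Fintype.card_bool,
          Fintype.card_fin, nsmul_eq_mul]
        push_cast
        ring

/-- The joint sensitivity is at most the total size. -/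
theorem sens_le_total [Fintype ι] [DecidableEq ι] (K : ℕ) (out : Fin K → BF ι) (s : Fin K → ℕ)
    (hs : ∀ j, FS (out j) (s j)) (S : ℕ) (hS0 : ∑ j, s j ≤ S) (x : ι → Bool) :
    (SensSet out x).card ≤ S := by
  classical
  have hFS : FS (cj out (fun j => out j x) Finset.univ) S := by
    obtain ⟨φ', h1, h2⟩ := FS_conj out s hs (fun j => out j x) Finset.univ
    exact ⟨φ', h1.trans hS0, h2⟩
  refine (L_sens _ ⟨S, hFS⟩ x (SensSet out x) ?_).trans (L_le hFS)
  intro i hi
  obtain ⟨j, hj⟩ := (mem_sens out x i).1 hi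
  have h1 : cj out (fun j => out j x) Finset.univ x = true :=
    (cj_true out _ Finset.univ x).2 fun j _ => rfl
  intro h2
  rw [h1] at h2
  exact hj ((cj_true out _ Finset.univ _).1 h2 j (Finset.mem_univ j))

/-! ### Composition -/

open Classical in
/-- Substitution of constants and literals. -/
noncomputable def Fm.comp {ι' : Type} (red : (ι → Bool) → (ι' → Bool)) : Fm ι' → Fm ι
  | Fm.const b => Fm.const b
  | Fm.lit cl b =>
    if h : ∃ c : Bool, ∀ x, red x cl = c then Fm.const (Classical.choose h == b)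
    else if h : ∃ (i : ι) (b' : Bool), ∀ x, red x cl = xor (x i) b' then
      Fm.lit (Classical.choose h) (xor (Classical.choose (Classical.choose_spec h)) b)
    else Fm.const true
  | Fm.gate s p q => Fm.gate s (p.comp red) (q.comp red)

theorem Fm.size_comp {ι' : Type} (red : (ι → Bool) → (ι' → Bool)) (φ : Fm ι') :
    (φ.comp red).size ≤ φ.size := by
  induction φ with
  | const b => exact le_rfl
  | lit cl b =>
    unfold Fm.comp
    split_ifs
    · exact Nat.zero_le _
    · exact le_rfl
    · exact Nat.zero_le _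
  | gate s p q hp hq =>
    simp only [Fm.comp, Fm.size]
    omega

theorem Fm.eval_comp {ι' : Type} (red : (ι → Bool) → (ι' → Bool))
    (hred : ∀ cl, IsLit (fun x => red x cl)) (x : ι → Bool) (φ : Fm ι') :
    (φ.comp red).eval x = φ.eval (red x) := by
  induction φ with
  | const b => rfl
  | lit cl b =>
    unfold Fm.comp
    split_ifs with h1 h2
    · have h3 := Classical.choose_spec h1 x
      simp only [Fm.eval, h3]
    · have h3 := Classical.choose_spec (Classical.choose_spec h2) x
      simp only [Fm.eval, h3]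
      cases x (Classical.choose h2) <;>
        cases (Classical.choose (Classical.choose_spec h2)) <;> cases b <;> rfl
    · rcases hred cl with h3 | h3
      · exact absurd h3 h1
      · exact absurd h3 h2
  | gate s p q hp hq => simp only [Fm.comp, Fm.eval, hp, hq]

theorem comp_formulaSmall {ι' : Type} (V : Verifier ι') (red : (ι → Bool) → (ι' → Bool))
    (hred : ∀ cl, IsLit (fun x => red x cl)) (S : ℕ) (hV : FormulaSmall V S) :
    FormulaSmall (AC0IP.comp V red) S := by
  obtain ⟨φ, ψ, h1, h2, h3⟩ := hV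
  refine ⟨fun ω h => (φ ω h).comp red, fun ω h => (ψ ω h).comp red, ?_, ?_, ?_⟩
  · intro ω h x
    rw [Fm.eval_comp red hred]
    exact h1 ω h (red x)
  · intro ω h x
    rw [Fm.eval_comp red hred]
    exact h2 ω h (red x)
  · intro ω h hlen
    refine le_trans ?_ (h3 ω h hlen)
    exact add_le_add (Fm.size_comp red _) (Finset.sum_le_sum fun j _ => Fm.size_comp red _)

/-- The functions evaluated by the verifier have formulas of total size at most `S`. -/
theorem outs_size (V : Verifier ι) (S : ℕ) (hV : FormulaSmall V S) (ω : V.Coin)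
    (h : List Bool) (hh : h.length = V.len) :
    ∃ s : Fin (V.len + 1) → ℕ, (∀ j, FS (outs V ω h j) (s j)) ∧ ∑ j, s j ≤ S := by
  obtain ⟨φ, ψ, h1, h2, h3⟩ := hV
  refine ⟨fun j => if (j : ℕ) = V.len then (ψ ω h).size
    else (φ ω (h.drop (V.len - j))).size, ?_, ?_⟩
  · intro j
    unfold outs
    by_cases hj : (j : ℕ) = V.len
    · simp only [hj, if_true]
      exact ⟨ψ ω h, le_rfl, h2 ω h⟩
    · simp only [hj, if_false]
      exact ⟨φ ω _, le_rfl, h1 ω _⟩
  · refine le_trans (le_of_eq ?_) (h3 ω h hh)
    rw [Fin.sum_univ_castSucc]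
    simp only [Fin.val_last, if_true, Fin.val_castSucc]
    rw [add_comm]
    congr 1
    rw [← Finset.sum_range_reflect, Finset.sum_range]
    apply Finset.sum_congr rfl
    intro j _
    have hj := j.2
    rw [if_neg (by omega)]
    have : V.len - 1 - (j : ℕ) + 1 = V.len - j := by omega
    rw [this]

end Pool.Agent.FIP
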