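import Pool.Agent.Lib.FIP.Main
import Pool.Agent.Lib.AC0IP.Main

/-!
# The lower bound for all `v`
-/

set_option autoImplicit false

namespace Pool.Agent.FIP

open Pool.Agent.AC0IP

theorem lower (k v S : ℕ) (hk : 3 ≤ k) (V : Verifier (Clause k v)) (C : Set V.Prover)
    (c s : ℝ) (hS : FormulaSmall V S) (hV : V.Decides C (UNSAT k v) c s) :
    (c - s) ^ 3 * (v : ℝ) ^ (3 * k) ≤ 2 ^ 24 * k * (5 * k) ^ (3 * k) *
      ((S + 1) ^ 2 * Real.log (S + 2) * (V.len + (v : ℝ) ^ (k - 1))) := by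
  have hS0 : (0 : ℝ) ≤ S := Nat.cast_nonneg S
  have hk1 : (1 : ℝ) ≤ k := by exact_mod_cast (by omega : 1 ≤ k)
  have hLg0 : (0.69 : ℝ) ≤ Real.log (S + 2) := by
    have h1 : Real.log 2 ≤ Real.log (S + 2) := by
      apply Real.log_le_log (by norm_num)
      linarith
    have := Real.log_two_gt_d9
    linarith
  have hR0 : 0 ≤ 2 ^ 24 * (k : ℝ) * (5 * k) ^ (3 * k) *
      ((S + 1) ^ 2 * Real.log (S + 2) * (V.len + (v : ℝ) ^ (k - 1))) := by
    have : 0 ≤ Real.log ((S : ℝ) + 2) := by linarith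
    positivity
  rcases le_or_gt (c - s) 0 with h0 | h0
  · have h1 : (c - s) ^ 3 ≤ 0 := by
      have : (c - s) ^ 3 = (c - s) * (c - s) ^ 2 := by ring
      rw [this]
      exact mul_nonpos_of_nonpos_of_nonneg h0 (sq_nonneg _)
    exact le_trans (mul_nonpos_of_nonpos_of_nonneg h1 (by positivity)) hR0
  rcases Nat.eq_zero_or_pos v with hv0 | hv0
  · have hv0' : (v : ℝ) = 0 := by exact_mod_cast hv0
    refine le_trans (le_of_eq ?_) hR0
    rw [hv0', zero_pow (by omega), mul_zero]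
  have hgap := gap_le_one k v hv0 V C c s hV
  have hv1 : (1 : ℝ) ≤ v := by exact_mod_cast hv0
  rcases lt_or_ge v (3 * k) with hv9 | hv9
  · have h1 : (c - s) ^ 3 * (v : ℝ) ^ (3 * k) ≤ 1 ^ 3 * (5 * (k : ℝ)) ^ (3 * k) := by
      have : (v : ℝ) ≤ 5 * k := by
        have : v ≤ 5 * k := by omega
        exact_mod_cast this
      gcongr
    have h2 : (1 : ℝ) ≤ V.len + (v : ℝ) ^ (k - 1) := by
      have h4 : (1 : ℝ) ≤ (v : ℝ) ^ (k - 1) := one_le_pow₀ hv1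
      have h5 : (0 : ℝ) ≤ V.len := Nat.cast_nonneg _
      linarith
    have h3 : (1 : ℝ) ≤ (S + 1) ^ 2 := by
      apply one_le_pow₀
      linarith
    calc _ ≤ _ := h1
      _ ≤ (2 ^ 24 * 1 * (1 * 0.69 * 1)) * (5 * (k : ℝ)) ^ (3 * k) := by
          have : (0 : ℝ) ≤ (5 * (k : ℝ)) ^ (3 * k) := by positivity
          nlinarith
      _ ≤ (2 ^ 24 * k * ((S + 1) ^ 2 * Real.log (S + 2) * (V.len + (v : ℝ) ^ (k - 1)))) *
          (5 * (k : ℝ)) ^ (3 * k) := by gcongr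
      _ = _ := by ring
  · obtain ⟨q, rfl⟩ : ∃ q, k = q + 1 := ⟨k - 1, by omega⟩
    set m := (v / (q + 1) - 1) / 2 with hm
    have hdiv : 3 ≤ v / (q + 1) := (Nat.le_div_iff_mul_le (by omega)).2 hv9
    have hm1 : 1 ≤ m := by omega
    have hmv : (q + 1) * (2 * m + 1) ≤ v := by
      calc (q + 1) * (2 * m + 1) ≤ (q + 1) * (v / (q + 1)) := by
            apply Nat.mul_le_mul_left
            omega
        _ ≤ v := Nat.mul_div_le v (q + 1)
    have hvm : v ≤ 5 * (q + 1) * m := by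
      have h1 : v < (q + 1) * (v / (q + 1) + 1) := by
        rw [mul_add, mul_one]
        have := Nat.div_add_mod v (q + 1)
        have h2 := Nat.mod_lt v (show 0 < q + 1 by omega)
        omega
      have h2 : v / (q + 1) + 1 ≤ 5 * m := by omega
      calc v ≤ (q + 1) * (v / (q + 1) + 1) := h1.le
        _ ≤ (q + 1) * (5 * m) := Nat.mul_le_mul_left _ h2
        _ = 5 * (q + 1) * m := by ring
    have hmv2 : m ≤ v := by
      have : 2 * m + 1 ≤ (q + 1) * (2 * m + 1) := Nat.le_mul_of_pos_left _ (by omega)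
      omega
    have h1 := core q m v S (by omega) hm1 hmv V C c s hS hV h0 hgap
    have h3 : (v : ℝ) ^ (3 * (q + 1)) ≤
        (5 * ((q + 1 : ℕ) : ℝ)) ^ (3 * (q + 1)) * ((m : ℝ) ^ (q + 1)) ^ 3 := by
      have : (v : ℝ) ≤ 5 * ((q + 1 : ℕ) : ℝ) * m := by exact_mod_cast hvm
      calc (v : ℝ) ^ (3 * (q + 1)) ≤ (5 * ((q + 1 : ℕ) : ℝ) * (m : ℝ)) ^ (3 * (q + 1)) := by
            gcongr
        _ = _ := by
          rw [mul_pow, ← pow_mul (m : ℝ), mul_comm (q + 1) 3]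
    have hmv' : (m : ℝ) ≤ v := by exact_mod_cast hmv2
    have h6 : (q + 1 - 1 : ℕ) = q := by omega
    rw [h6]
    have hδ3 : 0 ≤ (c - s) ^ 3 := by positivity
    have hLg1 : 0 ≤ Real.log ((S : ℝ) + 2) := by linarith
    have hqc : ((q : ℝ) + 1) = ((q + 1 : ℕ) : ℝ) := by push_cast; ring
    rw [hqc] at h1
    calc (c - s) ^ 3 * (v : ℝ) ^ (3 * (q + 1))
        ≤ (c - s) ^ 3 * ((5 * ((q + 1 : ℕ) : ℝ)) ^ (3 * (q + 1)) *
          ((m : ℝ) ^ (q + 1)) ^ 3) := by gcongr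
      _ = (5 * ((q + 1 : ℕ) : ℝ)) ^ (3 * (q + 1)) *
          ((c - s) ^ 3 * ((m : ℝ) ^ (q + 1)) ^ 3) := by ring
      _ ≤ (5 * ((q + 1 : ℕ) : ℝ)) ^ (3 * (q + 1)) *
          (2 ^ 24 * ((q + 1 : ℕ) : ℝ) * (S + 1) ^ 2 * Real.log (S + 2) *
            (V.len + (m : ℝ) ^ q)) := by gcongr
      _ ≤ (5 * ((q + 1 : ℕ) : ℝ)) ^ (3 * (q + 1)) *
          (2 ^ 24 * ((q + 1 : ℕ) : ℝ) * (S + 1) ^ 2 * Real.log (S + 2) *
            (V.len + (v : ℝ) ^ q)) := by gcongr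
      _ = _ := by ring

end Pool.Agent.FIP
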