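import Pool.Agent.Lib.FIP.Joint
import Pool.Agent.Lib.AC0IP.Proto
import Pool.Agent.Lib.AC0IP.Blocks
import Pool.Agent.Lib.AC0IP.Red
import Pool.Agent.Lib.AC0IP.Comp

/-!
# The lower bound
-/

set_option autoImplicit false

namespace Pool.Agent.FIP

open Pool.Agent.AC0IP

theorem core (q m v S : ℕ) (hq : 2 ≤ q) (hm : 1 ≤ m) (hmv : (q + 1) * (2 * m + 1) ≤ v)
    (V : Verifier (Clause (q + 1) v)) (C : Set V.Prover) (c s : ℝ)
    (hS : FormulaSmall V S) (hV : V.Decides C (UNSAT (q + 1) v) c s) (hδ0 : 0 < c - s)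
    (hδ1 : c - s ≤ 1) :
    (c - s) ^ 3 * ((m : ℝ) ^ (q + 1)) ^ 3 ≤
      2 ^ 24 * (q + 1) * (S + 1) ^ 2 * Real.log (S + 2) * (V.len + (m : ℝ) ^ q) := by
  classical
  obtain ⟨red, hred1, hred2⟩ := red_exists q m v hq hmv
  have hdec := comp_decides V red C (UNSAT (q + 1) v) c s hV
  have hsm := comp_formulaSmall V red hred1 S hS
  have hset : {x | red x ∈ UNSAT (q + 1) v} = AllOdd q m := by
    ext x
    exact hred2 x
  rw [hset] at hdec
  set V' := AC0IP.comp V red with hV'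
  have hlen : V'.len = V.len := rfl
  set M := V.len with hM
  set X := Finset.univ.filter (fun x : (Fin q → Fin m) × Fin m → Bool => x ∈ AllOdd q m) with hX
  have hcard := card_allOdd q m hm
  rw [← hX] at hcard
  have hn : Fintype.card ((Fin q → Fin m) × Fin m) = m ^ (q + 1) := by
    rw [Fintype.card_prod, Fintype.card_fun, Fintype.card_fin, Fintype.card_fin, pow_succ]
  have hXpos : (0 : ℝ) < X.card := by
    have h1 : 0 < X.card * 2 ^ (m ^ q) := lt_of_lt_of_le (by positivity) hcard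
    exact_mod_cast Nat.pos_of_mul_pos_right h1
  set δ := c - s with hδ
  set n := m ^ (q + 1) with hnn
  have hn1 : 1 ≤ n := Nat.one_le_pow _ _ hm
  have hn0 : (0 : ℝ) < n := by exact_mod_cast (by omega : 0 < n)
  set T := m ^ q with hT
  have hT1 : 1 ≤ T := Nat.one_le_pow _ _ hm
  have hnc : ((m : ℝ) ^ (q + 1)) = (n : ℝ) := by rw [hnn]; push_cast; rfl
  have hTc : ((m : ℝ) ^ q) = (T : ℝ) := by rw [hT]; push_cast; rfl
  rw [hnc, hTc]
  -- (a)
  have ha : δ * n ≤ S + 1 := by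
    have h1 := proto V' C (AllOdd q m) c s hdec X (fun x hx => (Finset.mem_filter.1 hx).2)
      (fun x hx i => flip_allOdd x (Finset.mem_filter.1 hx).2 i) (S + 1) 0 (by
        intro ω h hh
        obtain ⟨sz, h2, h3⟩ := outs_size V' S hsm ω h hh
        have h4 : (Finset.univ.filter (fun x : (Fin q → Fin m) × Fin m → Bool =>
            S + 1 ≤ (SensSet (outs V' ω h) x).card)) = ∅ := by
          rw [Finset.filter_eq_empty_iff]
          intro x _
          have := sens_le_total _ (outs V' ω h) sz h2 S h3 x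
          omega
        rw [h4]
        simp)
    rw [hn, ← hδ] at h1
    have h2 : (δ * n) * (X.card : ℝ) ≤ ((S : ℝ) + 1) * X.card := by
      push_cast at h1 ⊢
      linarith
    exact le_of_mul_le_mul_right h2 hXpos
  by_contra hcon
  push Not at hcon
  set A := M + T with hA
  have hA1 : 1 ≤ A := by omega
  have hA1' : (1 : ℝ) ≤ A := by exact_mod_cast hA1
  have hAc : (M : ℝ) + (T : ℝ) = (A : ℝ) := by rw [hA]; push_cast; rfl
  rw [hAc] at hcon
  set Lg := Real.log (S + 2) with hLg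
  have hLg0 : (0.69 : ℝ) ≤ Lg := by
    have h1 : Real.log 2 ≤ Lg := by
      apply Real.log_le_log (by norm_num)
      have : (0 : ℝ) ≤ S := Nat.cast_nonneg S
      linarith
    have := Real.log_two_gt_d9
    linarith
  have hS0 : (0 : ℝ) ≤ S := Nat.cast_nonneg S
  have hq0 : (2 : ℝ) ≤ q := by exact_mod_cast hq
  have hδn0 : 0 < δ * n := mul_pos hδ0 hn0
  -- lower bound for `δ n`
  have hδn : 2 ^ 24 * ((q : ℝ) + 1) * Lg * A < δ * n := by
    have h1 : (2 ^ 24 * ((q : ℝ) + 1) * Lg * A) * ((S : ℝ) + 1) ^ 2 <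
        (δ * n) * ((S : ℝ) + 1) ^ 2 := by
      calc (2 ^ 24 * ((q : ℝ) + 1) * Lg * A) * ((S : ℝ) + 1) ^ 2
          = 2 ^ 24 * ((q : ℝ) + 1) * (S + 1) ^ 2 * Lg * A := by ring
        _ < δ ^ 3 * (n : ℝ) ^ 3 := hcon
        _ = (δ * n) * (δ * n) ^ 2 := by ring
        _ ≤ (δ * n) * ((S : ℝ) + 1) ^ 2 := by gcongr
    exact lt_of_mul_lt_mul_right h1 (by positivity)
  have hδn2 : 2 < δ * n := by
    have h1 : (1 : ℝ) ≤ (q : ℝ) + 1 := by linarith
    have h2 : (2 : ℝ) ≤ 2 ^ 24 * 1 * 0.69 * 1 := by norm_num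
    calc (2 : ℝ) ≤ 2 ^ 24 * 1 * 0.69 * 1 := h2
      _ ≤ 2 ^ 24 * ((q : ℝ) + 1) * Lg * A := by gcongr
      _ < δ * n := hδn
  -- parameters
  set l := (2 * q + 9) * A with hl
  set h := ⌈64 / δ * Real.log (1 + S)⌉₊ + 3 with hh
  set r := 8 * l * h with hr
  have hl1 : 1 ≤ l := Nat.mul_pos (by omega) (by omega)
  have hh3 : 3 ≤ h := by omega
  have hl0 : (0 : ℝ) < l := by exact_mod_cast (by omega : 0 < l)
  have hlog0 : 0 ≤ Real.log (1 + S) := Real.log_nonneg (by linarith)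
  have hlogle : Real.log (1 + S) ≤ Lg := by
    apply Real.log_le_log (by positivity)
    linarith
  have hhlow : 64 / δ * Real.log (1 + S) ≤ h := by
    have h1 := Nat.le_ceil (64 / δ * Real.log (1 + S))
    have h2 : ((⌈64 / δ * Real.log (1 + S)⌉₊ : ℕ) : ℝ) ≤ h := by
      exact_mod_cast (by omega : ⌈64 / δ * Real.log (1 + S)⌉₊ ≤ h)
    linarith
  have hh0 : (0 : ℝ) < h := by exact_mod_cast (by omega : 0 < h)
  have hhup : δ * h ≤ 70 * Lg := by
    have h1 := Nat.ceil_lt_add_one (show 0 ≤ 64 / δ * Real.log (1 + S) by positivity)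
    have h2 : (h : ℝ) ≤ 64 / δ * Real.log (1 + S) + 4 := by
      rw [hh]
      push_cast
      linarith
    calc δ * h ≤ δ * (64 / δ * Real.log (1 + S) + 4) := by gcongr
      _ = 64 * Real.log (1 + S) + 4 * δ := by field_simp
      _ ≤ 64 * Lg + 4 * 1 := by gcongr
      _ ≤ 70 * Lg := by linarith
  have hδr : δ * r ≤ 5040 * ((q : ℝ) + 1) * Lg * A := by
    have h1 : (r : ℝ) = 8 * ((2 * q + 9) * A) * h := by
      rw [hr, hl]; push_cast; ring
    have h2 : (2 * (q : ℝ) + 9) ≤ 9 * (q + 1) := by linarith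
    calc δ * r = 8 * ((2 * q + 9) * A) * (δ * h) := by rw [h1]; ring
      _ ≤ 8 * ((9 * ((q : ℝ) + 1)) * A) * (70 * Lg) := by gcongr
      _ = 5040 * ((q : ℝ) + 1) * Lg * A := by ring
  have hrn : r ≤ n := by
    have h1 : δ * r ≤ δ * n := by
      refine hδr.trans (le_trans ?_ hδn.le)
      have h2 : (5040 : ℝ) ≤ 2 ^ 24 := by norm_num
      gcongr
    have h2 := le_of_mul_le_mul_left h1 hδ0
    exact_mod_cast h2
  have hhr : h ≤ r := by
    rw [hr]
    exact Nat.le_mul_of_pos_left _ (by omega)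
  have hlr : 3 + 5 * l * h ≤ r := by
    have h1 : 1 * 3 ≤ l * h := Nat.mul_le_mul hl1 hh3
    rw [hr]
    nlinarith
  have hθ : 0 < δ / 16 := by positivity
  have hSr : Real.exp 2 * ((S : ℝ) ^ 2 * r) ≤ (δ / 16) ^ 2 * (n : ℝ) ^ 3 := by
    have he : Real.exp 2 ≤ 7.39 := by
      have h1 : Real.exp 2 = Real.exp 1 ^ 2 := by
        rw [← Real.exp_nat_mul]
        norm_num
      have h2 := Real.exp_one_lt_d9
      have h3 := Real.exp_pos 1
      rw [h1]
      nlinarith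
    have h1 : (256 * δ) * (Real.exp 2 * ((S : ℝ) ^ 2 * r)) ≤
        (256 * δ) * ((δ / 16) ^ 2 * (n : ℝ) ^ 3) := by
      calc (256 * δ) * (Real.exp 2 * ((S : ℝ) ^ 2 * r))
          = 256 * Real.exp 2 * ((S : ℝ) ^ 2 * (δ * r)) := by ring
        _ ≤ 256 * 7.39 * (((S : ℝ) + 1) ^ 2 * (5040 * ((q : ℝ) + 1) * Lg * A)) := by
            have h5 : (S : ℝ) ≤ S + 1 := by linarith
            gcongr
        _ = (256 * 7.39 * 5040) * (((q : ℝ) + 1) * (S + 1) ^ 2 * Lg * A) := by ring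
        _ ≤ 2 ^ 24 * (((q : ℝ) + 1) * (S + 1) ^ 2 * Lg * A) := by
            have h5 : (256 * 7.39 * 5040 : ℝ) ≤ 2 ^ 24 := by norm_num
            gcongr
        _ = 2 ^ 24 * ((q : ℝ) + 1) * (S + 1) ^ 2 * Lg * A := by ring
        _ ≤ δ ^ 3 * (n : ℝ) ^ 3 := hcon.le
        _ = (256 * δ) * ((δ / 16) ^ 2 * (n : ℝ) ^ 3) := by ring
    exact le_of_mul_le_mul_left h1 (by positivity)
  have hlogh : 4 / (h : ℝ) * Real.log (1 + S) ≤ δ / 16 := by
    rw [div_mul_eq_mul_div, div_le_iff₀ hh0]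
    have h1 : δ / 16 * (64 / δ * Real.log (1 + S)) ≤ δ / 16 * h := by gcongr
    have h2 : δ / 16 * (64 / δ * Real.log (1 + S)) = 4 * Real.log (1 + S) := by
      field_simp
      ring
    linarith
  have hκ : δ / 8 ≤ δ / 4 - 4 / (h : ℝ) * Real.log (1 + S) - δ / 16 := by linarith
  set D := ⌈δ / 4 * n⌉₊ with hD
  have hD1 : δ / 4 * (n : ℝ) ≤ D := Nat.le_ceil _
  have hD2 : (D : ℝ) ≤ δ / 4 * n + 1 := (Nat.ceil_lt_add_one (by positivity)).le
  set τ : ℝ := 8 / δ * (2 ^ (M + 1) * (2 ^ n * Real.exp (-(l : ℝ)))) with hτ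
  have hmain := proto V' C (AllOdd q m) c s hdec X (fun x hx => (Finset.mem_filter.1 hx).2)
    (fun x hx i => flip_allOdd x (Finset.mem_filter.1 hx).2 i) D τ (by
      intro ω hist hhist
      obtain ⟨sz, h2, h3⟩ := outs_size V' S hsm ω hist hhist
      have h4 := tail_joint (V'.len + 1) (outs V' ω hist) sz h2 S h3 l h r hl1 hh3 hhr
        (by rw [hn]; exact hrn) hlr (δ / 16) (δ / 4) hθ (by rw [hn]; exact hSr) D
        (by rw [hn]; exact hD1) (by linarith)
      rw [hn, show (2 : ℝ) ^ (V'.len + 1) = 2 ^ (M + 1) from by rw [hlen]] at h4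
      set N : ℝ := ((Finset.univ.filter (fun x : (Fin q → Fin m) × Fin m → Bool =>
        D ≤ (SensSet (outs V' ω hist) x).card)).card : ℝ) with hN
      have hN0 : 0 ≤ N := Nat.cast_nonneg _
      have h5 : N * (δ / 8) ≤ 2 ^ (M + 1) * (2 ^ n * Real.exp (-(l : ℝ))) := by
        refine le_trans ?_ h4
        gcongr
      calc N = 8 / δ * (N * (δ / 8)) := by field_simp
        _ ≤ τ := by rw [hτ]; gcongr)
  rw [hn, ← hδ, hlen] at hmain
  have hcard' : (2 : ℝ) ^ n ≤ X.card * 2 ^ T := by exact_mod_cast hcard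
  -- the exponential is large
  have hexp : 64 * 2 ^ (2 * M) * 2 ^ T ≤ δ ^ 2 * Real.exp l := by
    have h1 : (n : ℝ) ^ 2 ≤ 2 ^ (2 * (q + 1) * T) := by
      have h2 : n ≤ 2 ^ ((q + 1) * T) := by
        have h3 : m ≤ T := by
          rw [hT]
          exact Nat.le_self_pow (by omega) m
        calc n = m ^ (q + 1) := rfl
          _ ≤ (2 ^ m) ^ (q + 1) := Nat.pow_le_pow_left Nat.lt_two_pow_self.le _
          _ ≤ (2 ^ T) ^ (q + 1) := by
              apply Nat.pow_le_pow_left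
              exact Nat.pow_le_pow_right (by norm_num) h3
          _ = 2 ^ ((q + 1) * T) := by rw [← pow_mul, mul_comm]
      have h4 : (n : ℝ) ≤ 2 ^ ((q + 1) * T) := by exact_mod_cast h2
      calc (n : ℝ) ^ 2 ≤ (2 ^ ((q + 1) * T)) ^ 2 := by gcongr
        _ = 2 ^ (2 * (q + 1) * T) := by rw [← pow_mul]; congr 1; ring
    have h5 : (1 : ℝ) ≤ δ ^ 2 * n ^ 2 := by
      have : (1 : ℝ) ≤ δ * n := by linarith
      calc (1 : ℝ) ≤ (δ * n) ^ 2 := one_le_pow₀ this
        _ = δ ^ 2 * n ^ 2 := by ring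
    have h6 : (2 : ℝ) ^ l ≤ Real.exp l := by
      have h7 : Real.exp (l : ℝ) = (Real.exp 1) ^ l := by
        rw [← Real.exp_nat_mul]
        congr 1
        ring
      rw [h7]
      apply pow_le_pow_left₀ (by norm_num)
      have := Real.exp_one_gt_d9
      linarith
    have h8 : 6 + 2 * M + T + 2 * (q + 1) * T ≤ l := by
      rw [hl, hA]
      nlinarith
    have h9 : (64 : ℝ) * 2 ^ (2 * M) * 2 ^ T * 2 ^ (2 * (q + 1) * T) ≤ 2 ^ l := by
      have h10 : (64 : ℝ) = 2 ^ 6 := by norm_num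
      rw [h10, ← pow_add, ← pow_add, ← pow_add]
      exact pow_le_pow_right₀ (by norm_num) h8
    calc (64 : ℝ) * 2 ^ (2 * M) * 2 ^ T
        ≤ (64 * 2 ^ (2 * M) * 2 ^ T) * (δ ^ 2 * n ^ 2) := by
          apply le_mul_of_one_le_right (by positivity) h5
      _ ≤ (64 * 2 ^ (2 * M) * 2 ^ T) * (δ ^ 2 * 2 ^ (2 * (q + 1) * T)) := by gcongr
      _ = δ ^ 2 * (64 * 2 ^ (2 * M) * 2 ^ T * 2 ^ (2 * (q + 1) * T)) := by ring
      _ ≤ δ ^ 2 * 2 ^ l := by gcongr
      _ ≤ δ ^ 2 * Real.exp l := by gcongr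
  have hfin : 2 ^ M * τ ≤ δ / 4 * X.card := by
    have h1 : Real.exp (-(l : ℝ)) * (64 * 2 ^ (2 * M) * 2 ^ T) ≤ δ ^ 2 := by
      rw [Real.exp_neg, ← div_eq_inv_mul, div_le_iff₀ (Real.exp_pos _)]
      exact hexp
    calc 2 ^ M * τ = (Real.exp (-(l : ℝ)) * (64 * 2 ^ (2 * M))) * (2 ^ n) / (4 * δ) := by
          rw [hτ, pow_mul, pow_succ]
          have : ((2 : ℝ) ^ 2) ^ M = 2 ^ M * 2 ^ M := by
            rw [← pow_mul, ← pow_add]
            congr 1
            ring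
          rw [this]
          field_simp
          ring
      _ ≤ (Real.exp (-(l : ℝ)) * (64 * 2 ^ (2 * M))) * (X.card * 2 ^ T) / (4 * δ) := by
          gcongr
      _ = (Real.exp (-(l : ℝ)) * (64 * 2 ^ (2 * M) * 2 ^ T)) * X.card / (4 * δ) := by ring
      _ ≤ δ ^ 2 * X.card / (4 * δ) := by gcongr
      _ = δ / 4 * X.card := by field_simp
  have h20 : δ * n * (X.card : ℝ) ≤ (δ / 4 * n + 1 + δ / 4 * n) * X.card := by
    calc δ * n * (X.card : ℝ) ≤ D * X.card + n * (2 ^ M * τ) := hmain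
      _ ≤ (δ / 4 * n + 1) * X.card + n * (δ / 4 * X.card) := by gcongr
      _ = _ := by ring
  have h21 := le_of_mul_le_mul_right h20 hXpos
  linarith

end Pool.Agent.FIP
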