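import Mathlib

/-!
# The potential `W`
-/

set_option autoImplicit false

namespace Pool.Agent.FIP

/-- The potential. -/
noncomputable def W (l h n ell : ℕ) : ℝ :=
  (((ell : ℝ) ^ 2) / (n : ℝ) ^ 3) ^ l * Real.exp (-(3 * l + 5 * l ^ 2 * h) / n)

theorem W_nonneg (l h n ell : ℕ) : 0 ≤ W l h n ell := by unfold W; positivity

theorem exp_neg_le (z : ℝ) (hz : 0 ≤ z) : Real.exp (-z) ≤ 1 - z + z ^ 2 / 2 := by
  have h1 := Real.quadratic_le_exp_of_nonneg hz
  rw [Real.exp_neg]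
  have h2 : 0 < 1 + z + z ^ 2 / 2 := by positivity
  calc (Real.exp z)⁻¹ ≤ (1 + z + z ^ 2 / 2)⁻¹ := inv_anti₀ h2 h1
    _ ≤ 1 - z + z ^ 2 / 2 := by
      rw [inv_le_iff_one_le_mul₀ h2]
      nlinarith [sq_nonneg (z ^ 2)]

/-- Shift from `n - 1` to `n`. -/
theorem W_shift (l h n : ℕ) (hn : 2 ≤ n) (ell : ℝ) (a : ℝ)
    (ha : a ≤ -(3 * l) / n + 5 * l ^ 2 * h / n ^ 2) :
    Real.exp a * ((ell ^ 2 / ((n - 1 : ℕ) : ℝ) ^ 3) ^ l *
      Real.exp (-(3 * l + 5 * l ^ 2 * h) / ((n - 1 : ℕ) : ℝ))) ≤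
      (ell ^ 2 / (n : ℝ) ^ 3) ^ l * Real.exp (-(3 * l + 5 * l ^ 2 * h) / n) := by
  obtain ⟨m, rfl⟩ : ∃ m, n = m + 2 := ⟨n - 2, by omega⟩
  have e1 : (m + 2 - 1 : ℕ) = m + 1 := by omega
  rw [e1]
  push_cast at ha ⊢
  set k : ℝ := (m : ℝ) + 1 with hk
  have hk0 : 0 < k := by positivity
  have hk1 : (m : ℝ) + 2 = k + 1 := by rw [hk]; ring
  rw [hk1] at ha ⊢
  have h1 : (ell ^ 2 / k ^ 3) ^ l ≤ (ell ^ 2 / (k + 1) ^ 3) ^ l * Real.exp (3 * l / k) := by
    have h2 : Real.exp (3 * l / k) = (Real.exp (3 / k)) ^ l := by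
      rw [← Real.exp_nat_mul]
      congr 1
      ring
    rw [h2, ← mul_pow]
    apply pow_le_pow_left₀ (by positivity)
    have h3 : ((k + 1) / k) ^ 3 ≤ Real.exp (3 / k) := by
      have h4 : (k + 1) / k ≤ Real.exp (1 / k) := by
        have := Real.add_one_le_exp (1 / k)
        have h5 : (k + 1) / k = 1 / k + 1 := by
          rw [add_div, div_self hk0.ne', add_comm]
        rw [h5]
        exact this
      calc ((k + 1) / k) ^ 3 ≤ (Real.exp (1 / k)) ^ 3 := by gcongr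
        _ = Real.exp (3 / k) := by
          rw [← Real.exp_nat_mul]
          congr 1
          push_cast
          ring
    have h6 : ell ^ 2 / k ^ 3 = ell ^ 2 / (k + 1) ^ 3 * ((k + 1) / k) ^ 3 := by
      field_simp
    rw [h6]
    gcongr
  calc Real.exp a * ((ell ^ 2 / k ^ 3) ^ l * Real.exp (-(3 * l + 5 * l ^ 2 * h) / k))
      ≤ Real.exp a * ((ell ^ 2 / (k + 1) ^ 3) ^ l * Real.exp (3 * l / k) *
        Real.exp (-(3 * l + 5 * l ^ 2 * h) / k)) := by gcongr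
    _ = (ell ^ 2 / (k + 1) ^ 3) ^ l *
        Real.exp (a + 3 * l / k + -(3 * l + 5 * l ^ 2 * h) / k) := by
        rw [Real.exp_add, Real.exp_add]; ring
    _ ≤ (ell ^ 2 / (k + 1) ^ 3) ^ l * Real.exp (-(3 * l + 5 * l ^ 2 * h) / (k + 1)) := by
        gcongr
        have h7 : a + 3 * l / k + -(3 * l + 5 * l ^ 2 * h) / k -
            (-(3 * l + 5 * l ^ 2 * h) / (k + 1)) ≤
            (-(3 * l) / (k + 1) + 5 * l ^ 2 * h / (k + 1) ^ 2) + 3 * l / k +
            -(3 * l + 5 * l ^ 2 * h) / k - (-(3 * l + 5 * l ^ 2 * h) / (k + 1)) := by linarith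
        have h8 : (-(3 * l) / (k + 1) + 5 * l ^ 2 * h / (k + 1) ^ 2) + 3 * l / k +
            -(3 * l + 5 * l ^ 2 * h) / k - (-(3 * l + 5 * l ^ 2 * h) / (k + 1)) =
            -(5 * (l : ℝ) ^ 2 * h) / (k * (k + 1) ^ 2) := by
          field_simp
          ring
        have h9 : -(5 * (l : ℝ) ^ 2 * h) / (k * (k + 1) ^ 2) ≤ 0 := by
          apply div_nonpos_of_nonpos_of_nonneg
          · have : 0 ≤ 5 * (l : ℝ) ^ 2 * h := by positivity
            linarith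
          · positivity
        linarith

theorem W_heavy (l h n ell c b : ℕ) (hh : 3 ≤ h) (hn : 2 ≤ n) (hc : h * ell < c * n)
    (hb : b + c ≤ ell) : W l h (n - 1) b ≤ W l h n ell := by
  unfold W
  have hn0 : (0 : ℝ) < n := by exact_mod_cast (by omega : 0 < n)
  have hell : 0 < ell := by
    rcases Nat.eq_zero_or_pos ell with h0 | h0
    · subst h0
      have : c = 0 := by omega
      subst this
      omega
    · exact h0
  have hell' : (0 : ℝ) < ell := by exact_mod_cast hell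
  have h1 : (b : ℝ) ≤ ell * Real.exp (-(h : ℝ) / n) := by
    have h2 : (b : ℝ) ≤ ell - c := by
      have : (b : ℝ) + c ≤ ell := by exact_mod_cast hb
      linarith
    have h3 : (h : ℝ) * ell < c * n := by exact_mod_cast hc
    have h4 : (h : ℝ) * ell / n ≤ c := by
      rw [div_le_iff₀ hn0]
      exact h3.le
    have h5 := Real.add_one_le_exp (-(h : ℝ) / n)
    calc (b : ℝ) ≤ ell - h * ell / n := by linarith
      _ = ell * (-(h : ℝ) / n + 1) := by field_simp; ring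
      _ ≤ _ := by gcongr
  have h6 : (((b : ℝ) ^ 2) / ((n - 1 : ℕ) : ℝ) ^ 3) ^ l ≤
      Real.exp (-(2 * l * h) / n) * (((ell : ℝ) ^ 2) / ((n - 1 : ℕ) : ℝ) ^ 3) ^ l := by
    have h7 : Real.exp (-(2 * l * h) / n) = ((Real.exp (-(h : ℝ) / n)) ^ 2) ^ l := by
      rw [← pow_mul, ← Real.exp_nat_mul]
      congr 1
      push_cast
      ring
    rw [h7, ← mul_pow]
    apply pow_le_pow_left₀ (by positivity)
    have h8 : (b : ℝ) ^ 2 ≤ (Real.exp (-(h : ℝ) / n)) ^ 2 * (ell : ℝ) ^ 2 := by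
      rw [← mul_pow]
      apply pow_le_pow_left₀ (by positivity)
      linarith
    calc (b : ℝ) ^ 2 / ((n - 1 : ℕ) : ℝ) ^ 3
        ≤ ((Real.exp (-(h : ℝ) / n)) ^ 2 * (ell : ℝ) ^ 2) / ((n - 1 : ℕ) : ℝ) ^ 3 := by
          gcongr
      _ = _ := by ring
  calc (((b : ℝ) ^ 2) / ((n - 1 : ℕ) : ℝ) ^ 3) ^ l *
        Real.exp (-(3 * l + 5 * l ^ 2 * h) / ((n - 1 : ℕ) : ℝ))
      ≤ (Real.exp (-(2 * l * h) / n) * (((ell : ℝ) ^ 2) / ((n - 1 : ℕ) : ℝ) ^ 3) ^ l) *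
        Real.exp (-(3 * l + 5 * l ^ 2 * h) / ((n - 1 : ℕ) : ℝ)) := by gcongr
    _ = Real.exp (-(2 * l * h) / n) * ((((ell : ℝ) ^ 2) / ((n - 1 : ℕ) : ℝ) ^ 3) ^ l *
        Real.exp (-(3 * l + 5 * l ^ 2 * h) / ((n - 1 : ℕ) : ℝ))) := by ring
    _ ≤ _ := by
      apply W_shift l h n hn (ell : ℝ)
      have h9 : -(2 * (l : ℝ) * h) / n ≤ -(3 * l) / n := by
        apply div_le_div_of_nonneg_right _ hn0.le
        have h10 : (3 : ℝ) ≤ h := by exact_mod_cast hh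
        have h11 : (0 : ℝ) ≤ l := Nat.cast_nonneg l
        nlinarith
      have h12 : (0 : ℝ) ≤ 5 * (l : ℝ) ^ 2 * h / n ^ 2 := by positivity
      linarith

/-- One light variable. -/
theorem W_var (l ell c b0 b1 : ℕ) (hell : 0 < ell) (h0 : b0 + c ≤ ell) (h1 : b1 + c ≤ ell)
    (h2 : b0 + b1 + 3 * c ≤ 2 * ell) :
    ((b0 : ℝ) / ell) ^ (2 * l) + ((b1 : ℝ) / ell) ^ (2 * l) ≤
      2 - 3 * (2 * l * (c / ell)) + 5 / 2 * (2 * l * ((c : ℝ) / ell)) ^ 2 := by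
  have hell' : (0 : ℝ) < ell := by exact_mod_cast hell
  set u : ℝ := (c : ℝ) / ell with hu
  have hu0 : 0 ≤ u := by positivity
  set E : ℝ := Real.exp (-(2 * l * u)) with hE
  have hE0 : 0 < E := Real.exp_pos _
  set a0 : ℝ := (b0 : ℝ) / ell with ha0
  set a1 : ℝ := (b1 : ℝ) / ell with ha1
  have ha00 : 0 ≤ a0 := by positivity
  have ha10 : 0 ≤ a1 := by positivity
  have h3 : a0 + u ≤ 1 := by
    rw [ha0, hu, ← add_div, div_le_one hell']
    exact_mod_cast h0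
  have h4 : a1 + u ≤ 1 := by
    rw [ha1, hu, ← add_div, div_le_one hell']
    exact_mod_cast h1
  have h5 : a0 + a1 + 3 * u ≤ 2 := by
    have h6 : (b0 : ℝ) + b1 + 3 * c ≤ 2 * ell := by exact_mod_cast h2
    have h7 : a0 + a1 + 3 * u = ((b0 : ℝ) + b1 + 3 * c) / ell := by
      rw [ha0, ha1, hu]; field_simp
    rw [h7, div_le_iff₀ hell']
    exact h6
  have hEu : E = (Real.exp (-u)) ^ (2 * l) := by
    rw [hE, ← Real.exp_nat_mul]
    congr 1
    push_cast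
    ring
  have hX : ∀ a : ℝ, 0 ≤ a → a + u ≤ 1 → a ^ (2 * l) ≤ E := by
    intro a h8 h9
    rw [hEu]
    apply pow_le_pow_left₀ h8
    have := Real.add_one_le_exp (-u)
    linarith
  have hX0 := hX a0 ha00 h3
  have hX1 := hX a1 ha10 h4
  have hXY : a0 ^ (2 * l) * a1 ^ (2 * l) ≤ E ^ 3 := by
    have h10 : E ^ 3 = (Real.exp (-(3 * u))) ^ (2 * l) := by
      rw [hE, ← Real.exp_nat_mul, ← Real.exp_nat_mul]
      congr 1
      push_cast
      ring
    rw [h10, ← mul_pow]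
    apply pow_le_pow_left₀ (by positivity)
    have h11 : a0 * a1 ≤ ((a0 + a1) / 2) ^ 2 := by nlinarith [sq_nonneg (a0 - a1)]
    have h12 : (a0 + a1) / 2 ≤ Real.exp (-(3 / 2 * u)) := by
      have := Real.add_one_le_exp (-(3 / 2 * u))
      linarith
    calc a0 * a1 ≤ ((a0 + a1) / 2) ^ 2 := h11
      _ ≤ (Real.exp (-(3 / 2 * u))) ^ 2 := by
        apply pow_le_pow_left₀ (by positivity) h12
      _ = Real.exp (-(3 * u)) := by
        rw [← Real.exp_nat_mul]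
        congr 1
        push_cast
        ring
  have hsum : a0 ^ (2 * l) + a1 ^ (2 * l) ≤ E + E ^ 2 := by
    have h13 : 0 ≤ (E - a0 ^ (2 * l)) * (E - a1 ^ (2 * l)) :=
      mul_nonneg (by linarith) (by linarith)
    have h14 : E * (a0 ^ (2 * l) + a1 ^ (2 * l)) ≤ E * (E + E ^ 2) := by nlinarith
    exact le_of_mul_le_mul_left h14 hE0
  have hz : 0 ≤ 2 * (l : ℝ) * u := by positivity
  have h15 := exp_neg_le (2 * l * u) hz
  have h16 : E ^ 2 = Real.exp (-(2 * (2 * l * u))) := by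
    rw [hE, ← Real.exp_nat_mul]
    congr 1
    push_cast
    ring
  have h17 := exp_neg_le (2 * (2 * l * u)) (by positivity)
  rw [← h16] at h17
  rw [← hE] at h15
  nlinarith

theorem W_light {ι : Type} (N : Finset ι) (l h ell : ℕ) (hn : 2 ≤ N.card)
    (hell : 2 ≤ ell) (c : ι → ℕ) (b0 b1 : ι → ℕ) (hsum : ∑ v ∈ N, c v = ell)
    (hlight : ∀ v ∈ N, c v * N.card ≤ h * ell)
    (h0 : ∀ v ∈ N, b0 v + c v ≤ ell) (h1 : ∀ v ∈ N, b1 v + c v ≤ ell)
    (h2 : ∀ v ∈ N, b0 v + b1 v + 3 * c v ≤ 2 * ell) :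
    (∑ v ∈ N, (W l h (N.card - 1) (b0 v) + W l h (N.card - 1) (b1 v)) / 2) / N.card ≤
      W l h N.card ell := by
  set n := N.card with hncard
  have hn0 : (0 : ℝ) < n := by exact_mod_cast (by omega : 0 < n)
  have hell' : (0 : ℝ) < ell := by exact_mod_cast (by omega : 0 < ell)
  set K : ℝ := ((ell : ℝ) ^ 2 / ((n - 1 : ℕ) : ℝ) ^ 3) ^ l *
    Real.exp (-(3 * l + 5 * l ^ 2 * h) / ((n - 1 : ℕ) : ℝ)) with hK
  have hK0 : 0 ≤ K := by positivity
  have hW : ∀ b : ℕ, W l h (n - 1) b = ((b : ℝ) / ell) ^ (2 * l) * K := by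
    intro b
    rw [hK]
    unfold W
    rw [pow_mul, ← mul_assoc, ← mul_pow]
    congr 2
    field_simp
  have hz : ∑ v ∈ N, (2 * (l : ℝ) * ((c v : ℝ) / ell)) = 2 * l := by
    rw [← Finset.mul_sum, ← Finset.sum_div]
    have : (∑ v ∈ N, (c v : ℝ)) = ell := by exact_mod_cast hsum
    rw [this, div_self hell'.ne', mul_one]
  have hz2 : ∑ v ∈ N, (2 * (l : ℝ) * ((c v : ℝ) / ell)) ^ 2 ≤
      ((2 * (l : ℝ) * ((h : ℝ) / n)) * (2 * l) : ℝ) := by
    calc ∑ v ∈ N, (2 * (l : ℝ) * ((c v : ℝ) / ell)) ^ 2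
        ≤ ∑ v ∈ N, (2 * (l : ℝ) * ((h : ℝ) / n)) * (2 * (l : ℝ) * ((c v : ℝ) / ell)) := by
          apply Finset.sum_le_sum
          intro v hv
          rw [sq]
          have h3 : (c v : ℝ) / ell ≤ h / n := by
            rw [div_le_div_iff₀ hell' hn0]
            exact_mod_cast hlight v hv
          gcongr
      _ = _ := by rw [← Finset.mul_sum, hz]
  have hmain : (∑ v ∈ N, (W l h (n - 1) (b0 v) + W l h (n - 1) (b1 v)) / 2) ≤
      (n - 3 * l + 5 * l ^ 2 * h / n) * K := by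
    calc (∑ v ∈ N, (W l h (n - 1) (b0 v) + W l h (n - 1) (b1 v)) / 2)
        = ∑ v ∈ N, (((b0 v : ℝ) / ell) ^ (2 * l) + ((b1 v : ℝ) / ell) ^ (2 * l)) / 2 * K := by
          apply Finset.sum_congr rfl
          intro v _
          rw [hW, hW]
          ring
      _ ≤ ∑ v ∈ N, (2 - 3 * (2 * l * (c v / ell)) +
          5 / 2 * (2 * l * ((c v : ℝ) / ell)) ^ 2) / 2 * K := by
          apply Finset.sum_le_sum
          intro v hv
          have := W_var l ell (c v) (b0 v) (b1 v) (by omega) (h0 v hv) (h1 v hv) (h2 v hv)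
          gcongr
      _ = (∑ v ∈ N, (1 - 3 / 2 * (2 * l * ((c v : ℝ) / ell)) +
          5 / 4 * (2 * l * ((c v : ℝ) / ell)) ^ 2)) * K := by
          rw [Finset.sum_mul]
          apply Finset.sum_congr rfl
          intro v _
          ring
      _ = (n - 3 * l + 5 / 4 * ∑ v ∈ N, (2 * l * ((c v : ℝ) / ell)) ^ 2) * K := by
          have e3 : ∑ v ∈ N, 3 / 2 * (2 * (l : ℝ) * ((c v : ℝ) / ell)) = 3 / 2 * (2 * l) := by
            exact (Finset.mul_sum N (fun v => 2 * (l : ℝ) * ((c v : ℝ) / ell)) (3 / 2)).symm.trans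
              (by rw [hz])
          have e4 : ∑ v ∈ N, 5 / 4 * (2 * (l : ℝ) * ((c v : ℝ) / ell)) ^ 2 =
              5 / 4 * ∑ v ∈ N, (2 * (l : ℝ) * ((c v : ℝ) / ell)) ^ 2 := by
            rw [Finset.mul_sum]
          rw [Finset.sum_add_distrib, Finset.sum_sub_distrib, e3, e4]
          simp only [Finset.sum_const, nsmul_eq_mul, mul_one]
          rw [← hncard]
          ring
      _ ≤ (n - 3 * l + 5 / 4 * ((2 * (l : ℝ) * ((h : ℝ) / n)) * (2 * l))) * K := by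
          apply mul_le_mul_of_nonneg_right _ hK0
          linarith
      _ = _ := by ring
  calc (∑ v ∈ N, (W l h (n - 1) (b0 v) + W l h (n - 1) (b1 v)) / 2) / n
      ≤ ((n - 3 * l + 5 * l ^ 2 * h / n) * K) / n := by gcongr
    _ = (-(3 * l) / n + 5 * l ^ 2 * h / n ^ 2 + 1) * K := by
        field_simp
        ring
    _ ≤ Real.exp (-(3 * l) / n + 5 * l ^ 2 * h / n ^ 2) * K := by
        have := Real.add_one_le_exp (-(3 * (l : ℝ)) / n + 5 * l ^ 2 * h / n ^ 2)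
        gcongr
    _ ≤ W l h n ell := W_shift l h n hn (ell : ℝ) _ le_rfl

end Pool.Agent.FIP
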