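import Pool.Agent.Lib.FIP.Sub
import Pool.Agent.Lib.FIP.WLem

/-!
# The random process which reveals the bits of the input
-/

set_option autoImplicit false

namespace Pool.Agent.FIP

open Pool.Agent.AC0IP

variable {ι : Type} [Fintype ι] [DecidableEq ι]

open Classical in
/-- Numbers of occurrences of the variables in a minimal formula of `g`. -/
noncomputable def cc (g : BF ι) : ι → ℕ :=
  if h : ∃ s, FS g s then Classical.choose (subb g h) else fun _ => 0

theorem cc_sum (g : BF ι) (h : ∃ s, FS g s) : ∑ v, cc g v = L g := by
  unfold cc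
  rw [dif_pos h]
  exact (Classical.choose_spec (subb g h)).1

theorem cc_le (g : BF ι) (h : ∃ s, FS g s) (v : ι) (b : Bool) : L (rs g v b) + cc g v ≤ L g := by
  unfold cc
  rw [dif_pos h]
  exact (Classical.choose_spec (subb g h)).2.1 v b

theorem cc_subb (g : BF ι) (h : ∃ s, FS g s) (h2 : 2 ≤ L g) (v : ι) :
    L (rs g v false) + L (rs g v true) + 3 * cc g v ≤ 2 * L g := by
  unfold cc
  rw [dif_pos h]
  exact (Classical.choose_spec (subb g h)).2.2 h2 v

/-- `v` is heavy for `f`, a function of the variables in `N`. -/
def Heavy (h : ℕ) (f : BF ι) (N : Finset ι) (v : ι) : Prop :=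
  v ∈ N ∧ h * L f < cc f v * N.card

open Classical in
/-- A heavy variable, if there is one. -/
noncomputable def sel (h : ℕ) (f : BF ι) (N : Finset ι) : Option ι :=
  if hh : ∃ v, Heavy h f N v then some (Classical.choose hh) else none

theorem sel_some (h : ℕ) (f : BF ι) (N : Finset ι) (v : ι) (hv : sel h f N = some v) :
    Heavy h f N v := by
  unfold sel at hv
  split_ifs at hv with hh
  have := Classical.choose_spec hh
  simp only [Option.some.injEq] at hv
  rwa [hv] at this

theorem sel_none (h : ℕ) (f : BF ι) (N : Finset ι) (hv : sel h f N = none) (v : ι)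
    (hN : v ∈ N) : cc f v * N.card ≤ h * L f := by
  unfold sel at hv
  split_ifs at hv with hh
  by_contra h0
  exact hh ⟨v, hN, by omega⟩

/-- The expectation of `Φ` after `t` more steps of the process. -/
noncomputable def EE (g : BF ι) (h : ℕ) (Φ : Finset ι → (ι → Bool) → ℝ) :
    ℕ → Finset ι → (ι → Bool) → ℝ
  | 0, N, x => Φ N x
  | t + 1, N, x =>
    match sel h (res g N x) N with
    | some v => EE g h Φ t (N.erase v) x
    | none => (∑ v ∈ N, EE g h Φ t (N.erase v) x) / N.card

theorem EE_succ_some (g : BF ι) (h : ℕ) (Φ : Finset ι → (ι → Bool) → ℝ) (t : ℕ) (N : Finset ι)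
    (x : ι → Bool) (v : ι) (hv : sel h (res g N x) N = some v) :
    EE g h Φ (t + 1) N x = EE g h Φ t (N.erase v) x := by
  simp only [EE, hv]

theorem EE_succ_none (g : BF ι) (h : ℕ) (Φ : Finset ι → (ι → Bool) → ℝ) (t : ℕ) (N : Finset ι)
    (x : ι → Bool) (hv : sel h (res g N x) N = none) :
    EE g h Φ (t + 1) N x = (∑ v ∈ N, EE g h Φ t (N.erase v) x) / N.card := by
  simp only [EE, hv]

theorem EE_mono (g : BF ι) (h r : ℕ) (Φ Ψ : Finset ι → (ι → Bool) → ℝ) (x : ι → Bool)
    (hΦ : ∀ N : Finset ι, N.card = r → Φ N x ≤ Ψ N x) (t : ℕ) (N : Finset ι)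
    (hN : N.card = r + t) : EE g h Φ t N x ≤ EE g h Ψ t N x := by
  induction t generalizing N with
  | zero => exact hΦ N hN
  | succ t ih =>
    have hcard : ∀ v ∈ N, (N.erase v).card = r + t := by
      intro v hv
      rw [Finset.card_erase_of_mem hv]
      omega
    cases hs : sel h (res g N x) N with
    | some v =>
      rw [EE_succ_some _ _ _ _ _ _ _ hs, EE_succ_some _ _ _ _ _ _ _ hs]
      exact ih _ (hcard v (sel_some _ _ _ _ hs).1)
    | none =>
      rw [EE_succ_none _ _ _ _ _ _ hs, EE_succ_none _ _ _ _ _ _ hs]
      gcongr with v hv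
      exact ih _ (hcard v hv)

theorem EE_add_mul (g : BF ι) (h r : ℕ) (hr : 1 ≤ r) (a K : ℝ) (Ψ : Finset ι → (ι → Bool) → ℝ)
    (x : ι → Bool) (t : ℕ) (N : Finset ι) (hN : N.card = r + t) :
    EE g h (fun N x => a + K * Ψ N x) t N x = a + K * EE g h Ψ t N x := by
  induction t generalizing N with
  | zero => rfl
  | succ t ih =>
    have hcard : ∀ v ∈ N, (N.erase v).card = r + t := by
      intro v hv
      rw [Finset.card_erase_of_mem hv]
      omega
    cases hs : sel h (res g N x) N with
    | some v =>
      rw [EE_succ_some _ _ _ _ _ _ _ hs, EE_succ_some _ _ _ _ _ _ _ hs]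
      exact ih _ (hcard v (sel_some _ _ _ _ hs).1)
    | none =>
      rw [EE_succ_none _ _ _ _ _ _ hs, EE_succ_none _ _ _ _ _ _ hs]
      have h0 : (N.card : ℝ) ≠ 0 := by
        have : 0 < N.card := by omega
        exact_mod_cast this.ne'
      rw [Finset.sum_congr rfl (fun v hv => ih _ (hcard v hv)), Finset.sum_add_distrib,
        ← Finset.mul_sum, Finset.sum_const, nsmul_eq_mul]
      field_simp

/-! ### The fraction of sensitive variables -/

theorem FS_res {g : BF ι} {s : ℕ} (h : FS g s) (N : Finset ι) (x : ι → Bool) :
    FS (res g N x) s := by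
  obtain ⟨φ, h1, h2⟩ := h
  -- substitute the variables outside `N` one after another
  have key : ∀ (A : Finset ι), ∃ ψ : Fm ι, ψ.size ≤ s ∧
      ∀ z, ψ.eval z = g (fun i => if i ∈ A then x i else z i) := by
    intro A
    induction A using Finset.induction_on with
    | empty => exact ⟨φ, h1, fun z => by simp [h2]⟩
    | insert v A hv ih =>
      obtain ⟨ψ, h3, h4⟩ := ih
      refine ⟨ψ.subst v (x v), ?_, fun z => ?_⟩
      · have := ψ.size_subst v (x v)
        omega
      · rw [Fm.eval_subst, h4]
        congr 1
        funext i
        by_cases hi : i ∈ A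
        · simp [hi]
        · by_cases hiv : i = v
          · subst hiv; simp [hi]
          · simp [hi, hiv]
  obtain ⟨ψ, h3, h4⟩ := key Nᶜ
  refine ⟨ψ, h3, fun z => ?_⟩
  rw [h4]
  unfold res
  congr 1
  funext i
  by_cases hi : i ∈ N
  · simp [hi]
  · simp [hi]

theorem res_erase (g : BF ι) (N : Finset ι) (x : ι → Bool) (v : ι) (hv : v ∈ N) (b : Bool) :
    res g (N.erase v) (Function.update x v b) = rs (res g N x) v b := by
  funext z
  unfold res rs
  congr 1
  funext i
  by_cases hiv : i = v
  · subst hiv; simp [hv]
  · simp [hiv]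

theorem res_erase' (g : BF ι) (N : Finset ι) (x : ι → Bool) (v : ι) (hv : v ∈ N) :
    res g (N.erase v) x = rs (res g N x) v (x v) := by
  rw [← res_erase g N x v hv (x v), Function.update_eq_self]

/-- The fraction of `J` decreases at most slowly. -/
theorem EE_frac (g : BF ι) (hg : ∃ s, FS g s) (h r : ℕ) (hh : 1 ≤ h) (hr : 1 ≤ r)
    (J : Finset ι) (x : ι → Bool) (t : ℕ) (N : Finset ι) (hN : N.card = r + t) :
    ((J ∩ N).card : ℝ) / N.card - 4 / h * Real.log (1 + L (res g N x)) ≤
      EE g h (fun N _ => ((J ∩ N).card : ℝ) / N.card) t N x := by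
  have hh' : (0 : ℝ) < h := by exact_mod_cast hh
  induction t generalizing N with
  | zero =>
    have : 0 ≤ 4 / (h : ℝ) * Real.log (1 + L (res g N x)) := by
      apply mul_nonneg (by positivity)
      apply Real.log_nonneg
      have : (0 : ℝ) ≤ L (res g N x) := Nat.cast_nonneg _
      linarith
    simp only [EE]
    linarith
  | succ t ih =>
    have hcard : ∀ v ∈ N, (N.erase v).card = r + t := by
      intro v hv
      rw [Finset.card_erase_of_mem hv]
      omega
    obtain ⟨s, hs0⟩ := hg
    have hFS : ∃ s, FS (res g N x) s := ⟨s, FS_res hs0 N x⟩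
    have hNn : 2 ≤ N.card := by omega
    have hn0 : (0 : ℝ) < N.card := by exact_mod_cast (by omega : 0 < N.card)
    have hn1 : (0 : ℝ) < (r + t : ℕ) := by exact_mod_cast (by omega : 0 < r + t)
    have hNr : (N.card : ℝ) = ((r + t : ℕ) : ℝ) + 1 := by rw [hN]; push_cast; ring
    set ell := L (res g N x) with hell
    have hLle : ∀ v ∈ N, L (res g (N.erase v) x) + cc (res g N x) v ≤ ell := by
      intro v hv
      rw [res_erase' g N x v hv]
      exact cc_le _ hFS v (x v)
    have hJ : ∀ v ∈ N, ((J ∩ N.erase v).card : ℝ) =
        ((J ∩ N).card : ℝ) - if v ∈ J then 1 else 0 := by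
      intro v hv
      rw [Finset.inter_erase]
      by_cases hvJ : v ∈ J
      · have h1 : v ∈ J ∩ N := Finset.mem_inter.2 ⟨hvJ, hv⟩
        rw [Finset.card_erase_of_mem h1, if_pos hvJ]
        have h2 : 1 ≤ (J ∩ N).card := Finset.card_pos.2 ⟨v, h1⟩
        rw [Nat.cast_sub h2, Nat.cast_one]
      · have h1 : v ∉ J ∩ N := fun h => hvJ (Finset.mem_inter.1 h).1
        rw [Finset.erase_eq_of_notMem h1, if_neg hvJ, sub_zero]
    cases hs : sel h (res g N x) N with
    | some v =>
      rw [EE_succ_some _ _ _ _ _ _ _ hs]
      obtain ⟨hvN, hheavy⟩ := sel_some _ _ _ _ hs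
      refine le_trans ?_ (ih _ (hcard v hvN))
      have h1 := hLle v hvN
      set ell' := L (res g (N.erase v) x) with hell'
      set c := cc (res g N x) v with hc
      have h2 : (h : ℝ) * ell < c * N.card := by exact_mod_cast hheavy
      have h3 : (ell' : ℝ) + c ≤ ell := by exact_mod_cast h1
      have hell1 : (1 : ℝ) ≤ ell := by
        have : 1 ≤ ell := by
          by_contra h0
          have h4 : ell = 0 := by omega
          have h5 : c = 0 := by omega
          rw [h5, zero_mul] at hheavy
          exact absurd hheavy (Nat.not_lt_zero _)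
        exact_mod_cast this
      -- the logarithm drops
      have h4 : 1 / ((r + t : ℕ) : ℝ) ≤
          4 / h * Real.log (1 + ell) - 4 / h * Real.log (1 + ell') := by
        have h5 : 1 - (1 + (ell' : ℝ)) / (1 + ell) ≤
            Real.log (1 + ell) - Real.log (1 + ell') := by
          have hp : 0 < (1 + (ell : ℝ)) / (1 + ell') := by positivity
          have h6 := Real.one_sub_inv_le_log_of_pos hp
          rw [Real.log_div (by positivity) (by positivity), inv_div] at h6
          exact h6
        have h7 : (h : ℝ) / (2 * N.card) ≤ 1 - (1 + (ell' : ℝ)) / (1 + ell) := by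
          have h8 : 1 - (1 + (ell' : ℝ)) / (1 + ell) = (ell - ell') / (1 + ell) := by
            field_simp
            ring
          rw [h8, div_le_div_iff₀ (by positivity) (by positivity)]
          have h9 : (c : ℝ) * N.card ≤ (ell - ell') * N.card := by
            apply mul_le_mul_of_nonneg_right _ hn0.le
            linarith
          nlinarith
        have h10 : 2 / (N.card : ℝ) ≤
            4 / h * (Real.log (1 + ell) - Real.log (1 + ell')) := by
          calc 2 / (N.card : ℝ) = 4 / h * (h / (2 * N.card)) := by
                field_simp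
                norm_num
            _ ≤ _ := by
                apply mul_le_mul_of_nonneg_left _ (by positivity)
                linarith
        have h11 : 1 / ((r + t : ℕ) : ℝ) ≤ 2 / (N.card : ℝ) := by
          rw [div_le_div_iff₀ hn1 hn0, hNr]
          have : (1 : ℝ) ≤ ((r + t : ℕ) : ℝ) := by exact_mod_cast (by omega : 1 ≤ r + t)
          linarith
        linarith
      have h12 : ((J ∩ N).card : ℝ) / N.card - 1 / ((r + t : ℕ) : ℝ) ≤
          ((J ∩ N.erase v).card : ℝ) / (N.erase v).card := by
        rw [hJ v hvN, hcard v hvN, hNr, sub_le_iff_le_add, ← add_div,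
          div_le_div_iff₀ (by linarith) hn1]
        have h13 : ((J ∩ N).card : ℝ) ≥ 0 := Nat.cast_nonneg _
        have h14 : (if v ∈ J then (1 : ℝ) else 0) ≤ 1 := by split_ifs <;> norm_num
        nlinarith
      linarith
    | none =>
      rw [EE_succ_none _ _ _ _ _ _ hs]
      have h1 : ∀ v ∈ N, ((J ∩ N.erase v).card : ℝ) / (N.erase v).card -
          4 / h * Real.log (1 + ell) ≤
          EE g h (fun N _ => ((J ∩ N).card : ℝ) / N.card) t (N.erase v) x := by
        intro v hv
        refine le_trans ?_ (ih _ (hcard v hv))
        have h2 : (L (res g (N.erase v) x) : ℝ) ≤ ell := by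
          exact_mod_cast (by have := hLle v hv; omega : L (res g (N.erase v) x) ≤ ell)
        have h3 : Real.log (1 + L (res g (N.erase v) x)) ≤ Real.log (1 + ell) := by
          apply Real.log_le_log (by positivity)
          linarith
        have h4 : 4 / (h : ℝ) * Real.log (1 + L (res g (N.erase v) x)) ≤
            4 / h * Real.log (1 + ell) := by gcongr
        linarith
      rw [le_div_iff₀ hn0]
      calc (((J ∩ N).card : ℝ) / N.card - 4 / h * Real.log (1 + ell)) * N.card
          = ∑ v ∈ N, (((J ∩ N.erase v).card : ℝ) / (N.erase v).card -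
            4 / h * Real.log (1 + ell)) := by
            rw [Finset.sum_sub_distrib, Finset.sum_const, nsmul_eq_mul, sub_mul]
            congr 1
            · rw [div_mul_cancel₀ _ hn0.ne']
              have h5 : ∀ v ∈ N, ((J ∩ N.erase v).card : ℝ) / (N.erase v).card =
                  (((J ∩ N).card : ℝ) - if v ∈ J then 1 else 0) / ((r + t : ℕ) : ℝ) := by
                intro v hv
                rw [hJ v hv, hcard v hv]
              rw [Finset.sum_congr rfl h5, ← Finset.sum_div, Finset.sum_sub_distrib,
                Finset.sum_const, nsmul_eq_mul, eq_div_iff hn1.ne']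
              have h6 : (∑ v ∈ N, if v ∈ J then (1 : ℝ) else 0) = ((J ∩ N).card : ℝ) := by
                rw [Finset.sum_ite_mem, Finset.inter_comm, Finset.sum_const, nsmul_eq_mul,
                  mul_one]
              rw [h6, hNr]
              ring
            · ring
        _ ≤ _ := Finset.sum_le_sum h1

/-! ### The supermartingale -/

/-- Mixture of `x` (outside `N`) and `y` (in `N`). -/
def mix (N : Finset ι) (x y : ι → Bool) : ι → Bool := fun i => if i ∈ N then y i else x i

theorem res_mix (g : BF ι) (N : Finset ι) (x y : ι → Bool) : res g N (mix N x y) = res g N x := by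
  funext z
  unfold res mix
  congr 1
  funext i
  by_cases hi : i ∈ N <;> simp [hi]

theorem mix_erase (N : Finset ι) (x y : ι → Bool) (v : ι) (hv : v ∈ N) :
    mix N x y = mix (N.erase v) (Function.update x v (y v)) y := by
  funext i
  unfold mix
  by_cases hiv : i = v
  · subst hiv; simp [hv]
  · simp [hiv]

theorem mix_flip (N : Finset ι) (x y : ι → Bool) (v : ι) (hv : v ∉ N) :
    mix N x (AC0IP.flip y v) = mix N x y := by
  funext i
  unfold mix AC0IP.flip
  by_cases hi : i ∈ N
  · have : i ≠ v := fun h => hv (h ▸ hi)
    simp [hi, this]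
  · simp [hi]

theorem flip_flip (y : ι → Bool) (v : ι) : AC0IP.flip (AC0IP.flip y v) v = y := by
  unfold AC0IP.flip
  funext i
  by_cases h : i = v
  · subst h; simp
  · simp [h]

/-- Sum over one bit. -/
theorem sum_split (v : ι) (F : Bool → (ι → Bool) → ℝ)
    (hF : ∀ b y, F b (AC0IP.flip y v) = F b y) :
    ∑ y, F (y v) y = (∑ y, F false y + ∑ y, F true y) / 2 := by
  have h1 : ∑ y, F (y v) y = ∑ y : ι → Bool, F (!y v) y := by
    let e : (ι → Bool) ≃ (ι → Bool) :=
      { toFun := fun y => AC0IP.flip y v
        invFun := fun y => AC0IP.flip y v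
        left_inv := fun y => flip_flip y v
        right_inv := fun y => flip_flip y v }
    rw [← Equiv.sum_comp e]
    apply Finset.sum_congr rfl
    intro y _
    change F (AC0IP.flip y v v) (AC0IP.flip y v) = _
    rw [hF]
    congr 1
    unfold AC0IP.flip
    simp
  have h2 : ∑ y, F (y v) y + ∑ y : ι → Bool, F (!y v) y = ∑ y, F false y + ∑ y, F true y := by
    rw [← Finset.sum_add_distrib, ← Finset.sum_add_distrib]
    apply Finset.sum_congr rfl
    intro y _
    cases y v
    · rfl
    · simp [add_comm]
  linarith

theorem EE_W (g : BF ι) (hg : ∃ s, FS g s) (l h r : ℕ) (hl : 1 ≤ l) (hh : 3 ≤ h) (hr : h ≤ r)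
    (t : ℕ) (N : Finset ι) (x : ι → Bool) (hN : N.card = r + t) :
    ∑ y, EE g h (fun N x => W l h N.card (L (res g N x))) t N (mix N x y) ≤
      2 ^ Fintype.card ι * W l h N.card (L (res g N x)) := by
  have h2n : ((Finset.univ : Finset (ι → Bool)).card : ℝ) = 2 ^ Fintype.card ι := by
    rw [Finset.card_univ, Fintype.card_fun, Fintype.card_bool]
    push_cast
    rfl
  induction t generalizing N x with
  | zero =>
    simp only [EE]
    have : ∀ y : ι → Bool, W l h N.card (L (res g N (mix N x y))) =
        W l h N.card (L (res g N x)) := by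
      intro y
      rw [res_mix]
    rw [Finset.sum_congr rfl (fun y _ => this y), Finset.sum_const, nsmul_eq_mul, h2n]
  | succ t ih =>
    set Φ : Finset ι → (ι → Bool) → ℝ := fun N x => W l h N.card (L (res g N x)) with hΦ
    have hcard : ∀ v ∈ N, (N.erase v).card = r + t := by
      intro v hv
      rw [Finset.card_erase_of_mem hv]
      omega
    obtain ⟨s, hs0⟩ := hg
    have hFS : ∃ s, FS (res g N x) s := ⟨s, FS_res hs0 N x⟩
    have hstep : ∀ v ∈ N, ∑ y, EE g h Φ t (N.erase v) (mix N x y) ≤
        2 ^ Fintype.card ι * ((W l h (N.card - 1) (L (rs (res g N x) v false)) +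
          W l h (N.card - 1) (L (rs (res g N x) v true))) / 2) := by
      intro v hv
      have h1 : ∀ y, EE g h Φ t (N.erase v) (mix N x y) =
          EE g h Φ t (N.erase v) (mix (N.erase v) (Function.update x v (y v)) y) := by
        intro y
        rw [← mix_erase N x y v hv]
      rw [Finset.sum_congr rfl (fun y _ => h1 y),
        sum_split v (fun b y => EE g h Φ t (N.erase v)
          (mix (N.erase v) (Function.update x v b) y))
          (fun b y => by rw [mix_flip _ _ _ _ (Finset.notMem_erase v N)])]
      have h2 := ih (N.erase v) (Function.update x v false) (hcard v hv)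
      have h3 := ih (N.erase v) (Function.update x v true) (hcard v hv)
      rw [res_erase g N x v hv, Finset.card_erase_of_mem hv] at h2 h3
      linarith
    cases hs : sel h (res g N x) N with
    | some v =>
      have hs' : ∀ y, sel h (res g N (mix N x y)) N = some v := by
        intro y
        rw [res_mix]
        exact hs
      rw [Finset.sum_congr rfl (fun y _ => EE_succ_some g h Φ t N (mix N x y) v (hs' y))]
      obtain ⟨hvN, hheavy⟩ := sel_some _ _ _ _ hs
      refine (hstep v hvN).trans ?_
      apply mul_le_mul_of_nonneg_left _ (by positivity)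
      have h1 := W_heavy l h N.card (L (res g N x)) (cc (res g N x) v)
        (L (rs (res g N x) v false)) hh (by omega) hheavy (cc_le _ hFS v false)
      have h2 := W_heavy l h N.card (L (res g N x)) (cc (res g N x) v)
        (L (rs (res g N x) v true)) hh (by omega) hheavy (cc_le _ hFS v true)
      linarith
    | none =>
      have hs' : ∀ y, sel h (res g N (mix N x y)) N = none := by
        intro y
        rw [res_mix]
        exact hs
      rw [Finset.sum_congr rfl (fun y _ => EE_succ_none g h Φ t N (mix N x y) (hs' y)),
        ← Finset.sum_div, Finset.sum_comm]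
      have hn0 : (0 : ℝ) < N.card := by exact_mod_cast (by omega : 0 < N.card)
      have hccN : ∀ v, v ∉ N → cc (res g N x) v = 0 := by
        intro v hv
        have h1 := cc_le _ hFS v true
        have h2 : rs (res g N x) v true = res g N x := by
          funext z
          unfold rs res
          congr 1
          funext i
          by_cases hi : i ∈ N
          · have : i ≠ v := fun h => hv (h ▸ hi)
            simp [hi, this]
          · simp [hi]
        rw [h2] at h1
        omega
      have hsum : ∑ v ∈ N, cc (res g N x) v = L (res g N x) := by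
        rw [← cc_sum _ hFS]
        apply Finset.sum_subset (Finset.subset_univ N)
        intro v _ hv
        exact hccN v hv
      have hlight := fun v hv => sel_none h (res g N x) N hs v hv
      have hbound : (∑ v ∈ N, (W l h (N.card - 1) (L (rs (res g N x) v false)) +
          W l h (N.card - 1) (L (rs (res g N x) v true))) / 2) / N.card ≤
          W l h N.card (L (res g N x)) := by
        rcases Nat.lt_or_ge (L (res g N x)) 2 with h1 | h1
        · -- the function is constant
          have h2 : L (res g N x) = 0 := by
            by_contra h0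
            have h3 : L (res g N x) = 1 := by omega
            obtain ⟨v, hv, hcv⟩ : ∃ v ∈ N, cc (res g N x) v ≠ 0 := by
              by_contra h4
              push Not at h4
              rw [Finset.sum_eq_zero h4] at hsum
              omega
            have h5 := hlight v hv
            rw [h3] at h5
            have h6 : N.card ≤ cc (res g N x) v * N.card :=
              Nat.le_mul_of_pos_left _ (Nat.pos_of_ne_zero hcv)
            omega
          have h3 : ∀ v b, W l h (N.card - 1) (L (rs (res g N x) v b)) = 0 := by
            intro v b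
            have h4 := cc_le _ hFS v b
            have h5 : L (rs (res g N x) v b) = 0 := by omega
            rw [h5]
            unfold W
            have : ((0 : ℕ) : ℝ) ^ 2 / ((N.card - 1 : ℕ) : ℝ) ^ 3 = 0 := by simp
            rw [this, zero_pow (by omega), zero_mul]
          simp only [h3, add_zero, zero_div, Finset.sum_const_zero]
          exact W_nonneg _ _ _ _
        · exact W_light N l h (L (res g N x)) (by omega) h1 (cc (res g N x))
            (fun v => L (rs (res g N x) v false)) (fun v => L (rs (res g N x) v true)) hsum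
            hlight (fun v _ => cc_le _ hFS v false) (fun v _ => cc_le _ hFS v true)
            (fun v _ => cc_subb _ hFS h1 v)
      calc (∑ v ∈ N, ∑ y, EE g h Φ t (N.erase v) (mix N x y)) / (N.card : ℝ)
          ≤ (∑ v ∈ N, 2 ^ Fintype.card ι * ((W l h (N.card - 1) (L (rs (res g N x) v false)) +
            W l h (N.card - 1) (L (rs (res g N x) v true))) / 2)) / N.card := by
            apply div_le_div_of_nonneg_right _ hn0.le
            exact Finset.sum_le_sum hstep
        _ = 2 ^ Fintype.card ι * ((∑ v ∈ N, (W l h (N.card - 1) (L (rs (res g N x) v false)) +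
            W l h (N.card - 1) (L (rs (res g N x) v true))) / 2) / N.card) := by
            rw [← Finset.mul_sum, mul_div_assoc]
        _ ≤ _ := by
            apply mul_le_mul_of_nonneg_left hbound (by positivity)

end Pool.Agent.FIP
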