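import Pool.Agent.Lib.FIP.Defs

/-!
# Subbotovskaya's inequality
-/

set_option autoImplicit false

namespace Pool.Agent.FIP

open Pool.Agent.AC0IP

variable {ι : Type}

theorem op_self (s b : Bool) : op s s b = b := by cases s <;> cases b <;> rfl

theorem op_not (s b : Bool) : op s (!s) b = !s := by cases s <;> cases b <;> rfl

theorem op_comm (s a b : Bool) : op s a b = op s b a := by
  cases s <;> cases a <;> cases b <;> rfl

theorem L_le {g : BF ι} {s : ℕ} (h : FS g s) : L g ≤ s := Nat.sInf_le h

theorem L_spec {g : BF ι} (h : ∃ s, FS g s) :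
    ∃ φ : Fm ι, φ.size = L g ∧ ∀ x, φ.eval x = g x := by
  have h1 : FS g (L g) := Nat.sInf_mem h
  obtain ⟨φ, h2, h3⟩ := h1
  exact ⟨φ, le_antisymm h2 (L_le ⟨φ, le_rfl, h3⟩), h3⟩

theorem L_eval_le (φ : Fm ι) : L (fun x => φ.eval x) ≤ φ.size := L_le ⟨φ, le_rfl, fun _ => rfl⟩

theorem L_const (b : Bool) : L (fun _ : ι → Bool => b) = 0 :=
  Nat.le_zero.1 (L_le ⟨Fm.const b, le_rfl, fun _ => rfl⟩)

theorem FS_op {g h : BF ι} {a b : ℕ} (s : Bool) (hg : FS g a) (hh : FS h b) :
    FS (fun x => op s (g x) (h x)) (a + b) := by
  obtain ⟨p, hp1, hp2⟩ := hg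
  obtain ⟨q, hq1, hq2⟩ := hh
  exact ⟨Fm.gate s p q, by simp only [Fm.size]; omega,
    fun x => by simp only [Fm.eval, hp2, hq2]⟩

namespace Fm

variable [DecidableEq ι]

/-- Substitution of a constant. -/
def subst (v : ι) (b : Bool) : Fm ι → Fm ι
  | const c => const c
  | lit i c => if i = v then const (b == c) else lit i c
  | gate s p q => gate s (p.subst v b) (q.subst v b)

/-- Number of leaves with the variable `v`. -/
def occ (v : ι) : Fm ι → ℕ
  | const _ => 0
  | lit i _ => if i = v then 1 else 0
  | gate _ p q => p.occ v + q.occ v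

theorem eval_subst (v : ι) (b : Bool) (x : ι → Bool) (φ : Fm ι) :
    (φ.subst v b).eval x = φ.eval (Function.update x v b) := by
  induction φ with
  | const c => rfl
  | lit i c =>
    by_cases h : i = v
    · subst h; simp [subst, eval]
    · simp [subst, eval, h]
  | gate s p q hp hq => simp only [subst, eval, hp, hq]

theorem size_subst (v : ι) (b : Bool) (φ : Fm ι) : (φ.subst v b).size + φ.occ v = φ.size := by
  induction φ with
  | const c => rfl
  | lit i c =>
    by_cases h : i = v
    · subst h; simp [subst, size, occ]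
    · simp [subst, size, occ, h]
  | gate s p q hp hq => simp only [subst, size, occ]; omega

theorem sum_occ [Fintype ι] (φ : Fm ι) : ∑ v, φ.occ v = φ.size := by
  induction φ with
  | const c => simp [occ, size]
  | lit i c => simp [occ, size]
  | gate s p q hp hq => simp only [occ, size, Finset.sum_add_distrib, hp, hq]

theorem eval_congr (φ : Fm ι) (x y : ι → Bool) (h : ∀ v, φ.occ v ≠ 0 → x v = y v) :
    φ.eval x = φ.eval y := by
  induction φ with
  | const c => rfl
  | lit i c =>
    have := h i (by simp [occ])
    simp only [eval, this]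
  | gate s p q hp hq =>
    have h1 := hp (fun v hv => h v (by simp only [occ]; omega))
    have h2 := hq (fun v hv => h v (by simp only [occ]; omega))
    simp only [eval, h1, h2]

theorem occ_le (v : ι) (φ : Fm ι) : φ.occ v ≤ φ.size := by
  have := size_subst v true φ
  omega

end Fm

variable [DecidableEq ι]

theorem FS_rs {g : BF ι} {s : ℕ} (h : FS g s) (v : ι) (b : Bool) : FS (rs g v b) s := by
  obtain ⟨φ, h1, h2⟩ := h
  refine ⟨φ.subst v b, ?_, fun x => ?_⟩
  · have := φ.size_subst v b
    omega
  · rw [Fm.eval_subst, h2]
    rfl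

theorem rs_le (φ : Fm ι) (v : ι) (b : Bool) :
    L (rs (fun x => φ.eval x) v b) + φ.occ v ≤ φ.size := by
  have h1 : FS (rs (fun x => φ.eval x) v b) (φ.subst v b).size :=
    ⟨φ.subst v b, le_rfl, fun x => Fm.eval_subst v b x φ⟩
  have h2 := L_le h1
  have h3 := φ.size_subst v b
  omega

omit [DecidableEq ι] in
theorem L_op {g h : BF ι} (s : Bool) (hg : ∃ a, FS g a) (hh : ∃ a, FS h a) :
    L (fun x => op s (g x) (h x)) ≤ L g + L h :=
  L_le (FS_op s (Nat.sInf_mem hg) (Nat.sInf_mem hh))

/-- The case in which one of the two subformulas is a literal of the variable `v`. -/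
theorem lit_case [Fintype ι] (s : Bool) (p q : Fm ι) (hp : p.size = 1) (hq : 1 ≤ q.size)
    (hmin : p.size + q.size = L (fun x => op s (p.eval x) (q.eval x)))
    (hpm : p.size = L (fun x => p.eval x)) (v : ι) (hv : p.occ v ≠ 0) :
    L (rs (fun x => op s (p.eval x) (q.eval x)) v false) +
      L (rs (fun x => op s (p.eval x) (q.eval x)) v true) + 3 * (p.occ v + q.occ v) ≤
      2 * (p.size + q.size) := by
  have hocc : ∀ w, w ≠ v → p.occ w = 0 := by
    intro w hw
    by_contra h0
    have h1 : p.occ v + p.occ w ≤ ∑ u, p.occ u := by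
      have := Finset.add_le_sum (s := (Finset.univ : Finset ι)) (f := fun u => p.occ u)
        (fun _ _ => Nat.zero_le _) (Finset.mem_univ v) (Finset.mem_univ w) (Ne.symm hw)
      exact this
    rw [Fm.sum_occ, hp] at h1
    omega
  have hpv : p.occ v = 1 := by
    have := p.occ_le v
    omega
  -- `p` is a function of `x v`
  have hdep : ∀ x y : ι → Bool, x v = y v → p.eval x = p.eval y := by
    intro x y hxy
    apply Fm.eval_congr
    intro w hw
    by_cases h : w = v
    · rw [h]; exact hxy
    · exact absurd (hocc w h) hw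
  -- the value for which `p` is neutral
  obtain ⟨τ, hτ1, hτ2⟩ : ∃ τ : Bool, (∀ x : ι → Bool, x v = τ → p.eval x = s) ∧
      ∀ x : ι → Bool, x v = (!τ) → p.eval x = !s := by
    by_cases h1 : p.eval (fun _ => true) = s
    · by_cases h2 : p.eval (fun _ => false) = s
      · exfalso
        have h3 : (fun x => p.eval x) = fun _ => s := by
          funext x
          cases hx : x v
          · rw [hdep x (fun _ => false) hx, h2]
          · rw [hdep x (fun _ => true) hx, h1]
        rw [h3, L_const] at hpm
        omega
      · refine ⟨true, fun x hx => ?_, fun x hx => ?_⟩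
        · rw [hdep x (fun _ => true) hx, h1]
        · rw [hdep x (fun _ => false) hx]
          cases s <;> simpa using h2
    · by_cases h2 : p.eval (fun _ => false) = s
      · refine ⟨false, fun x hx => ?_, fun x hx => ?_⟩
        · rw [hdep x (fun _ => false) hx, h2]
        · rw [hdep x (fun _ => true) hx]
          cases s <;> simpa using h1
      · exfalso
        have h3 : (fun x => p.eval x) = fun _ => !s := by
          funext x
          cases hx : x v
          · rw [hdep x (fun _ => false) hx]
            cases s <;> simpa using h2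
          · rw [hdep x (fun _ => true) hx]
            cases s <;> simpa using h1
        rw [h3, L_const] at hpm
        omega
  have hA : rs (fun x => op s (p.eval x) (q.eval x)) v τ = rs (fun x => q.eval x) v τ := by
    funext x
    unfold rs
    simp only
    rw [hτ1 _ (Function.update_self v τ x), op_self]
  have hB : rs (fun x => op s (p.eval x) (q.eval x)) v (!τ) = fun _ => !s := by
    funext x
    unfold rs
    simp only
    rw [hτ2 _ (Function.update_self v (!τ) x), op_not]
  have hC : (fun x => op s (p.eval x) (q.eval x)) =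
      fun x => op s (p.eval x) (rs (fun x => q.eval x) v τ x) := by
    funext x
    by_cases hx : x v = τ
    · unfold rs
      rw [← hx, Function.update_eq_self]
    · have hx' : x v = !τ := by cases τ <;> simpa using hx
      rw [hτ2 x hx', op_not, op_not]
  have hq1 := rs_le q v τ
  have hmin' : L (fun x => op s (p.eval x) (q.eval x)) ≤
      p.size + L (rs (fun x => q.eval x) v τ) := by
    rw [hC]
    have hne : ∃ a, FS (rs (fun x => q.eval x) v τ) a :=
      ⟨_, FS_rs ⟨q, le_rfl, fun _ => rfl⟩ v τ⟩
    have hmem : FS (rs (fun x => q.eval x) v τ) (L (rs (fun x => q.eval x) v τ)) :=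
      Nat.sInf_mem hne
    exact L_le (FS_op s ⟨p, le_rfl, fun _ => rfl⟩ hmem)
  have hsum : L (rs (fun x => op s (p.eval x) (q.eval x)) v false) +
      L (rs (fun x => op s (p.eval x) (q.eval x)) v true) =
      L (rs (fun x => q.eval x) v τ) := by
    cases τ
    · have hB' : rs (fun x => op s (p.eval x) (q.eval x)) v true = fun _ => !s := hB
      rw [hA, hB', L_const, add_zero]
    · have hB' : rs (fun x => op s (p.eval x) (q.eval x)) v false = fun _ => !s := hB
      rw [hA, hB', L_const, zero_add]
  rw [hsum]
  omega

theorem subb_fm [Fintype ι] (φ : Fm ι) (hmin : φ.size = L (fun x => φ.eval x))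
    (h2 : 2 ≤ φ.size) (v : ι) :
    L (rs (fun x => φ.eval x) v false) + L (rs (fun x => φ.eval x) v true) + 3 * φ.occ v ≤
      2 * φ.size := by
  induction φ with
  | const c => simp [Fm.size] at h2
  | lit i c => simp [Fm.size] at h2
  | gate s p q hp hq =>
    have hG : (fun x => (Fm.gate s p q).eval x) = fun x => op s (p.eval x) (q.eval x) := rfl
    simp only [Fm.size] at h2 hmin ⊢
    rw [hG] at hmin ⊢
    simp only [Fm.occ]
    have hFp : ∃ a, FS (fun x => p.eval x) a := ⟨_, p, le_rfl, fun _ => rfl⟩
    have hFq : ∃ a, FS (fun x => q.eval x) a := ⟨_, q, le_rfl, fun _ => rfl⟩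
    have hLG := L_op s hFp hFq
    have hpl := L_eval_le p
    have hql := L_eval_le q
    have hpm : p.size = L (fun x => p.eval x) := by omega
    have hqm : q.size = L (fun x => q.eval x) := by omega
    have hrs : ∀ b, L (rs (fun x => op s (p.eval x) (q.eval x)) v b) ≤
        L (rs (fun x => p.eval x) v b) + L (rs (fun x => q.eval x) v b) := by
      intro b
      exact L_op s ⟨_, FS_rs ⟨p, le_rfl, fun _ => rfl⟩ v b⟩ ⟨_, FS_rs ⟨q, le_rfl, fun _ => rfl⟩ v b⟩
    -- a formula of size zero is constant
    have hconst : ∀ r : Fm ι, r.size = 0 → ∃ c, (fun x => r.eval x) = fun _ => c := by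
      intro r hr
      refine ⟨r.eval (fun _ => true), ?_⟩
      funext x
      apply Fm.eval_congr
      intro w hw
      have := r.occ_le w
      omega
    rcases Nat.eq_zero_or_pos p.size with hp0 | hp0
    · obtain ⟨c, hc⟩ := hconst p hp0
      have hc' : ∀ x, p.eval x = c := fun x => congrFun hc x
      have hpo : p.occ v = 0 := by have := p.occ_le v; omega
      by_cases hcs : c = s
      · have hGq : (fun x => op s (p.eval x) (q.eval x)) = fun x => q.eval x := by
          funext x
          rw [hc', hcs, op_self]
        rw [hGq]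
        have := hq hqm (by omega)
        omega
      · have hcs' : c = !s := by cases c <;> cases s <;> simp_all
        have hGc : (fun x => op s (p.eval x) (q.eval x)) = fun _ => !s := by
          funext x
          rw [hc', hcs', op_not]
        rw [hGc, L_const] at hmin
        omega
    rcases Nat.eq_zero_or_pos q.size with hq0 | hq0
    · obtain ⟨c, hc⟩ := hconst q hq0
      have hc' : ∀ x, q.eval x = c := fun x => congrFun hc x
      have hqo : q.occ v = 0 := by have := q.occ_le v; omega
      by_cases hcs : c = s
      · have hGp : (fun x => op s (p.eval x) (q.eval x)) = fun x => p.eval x := by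
          funext x
          rw [hc', hcs, op_comm, op_self]
        rw [hGp]
        have := hp hpm (by omega)
        omega
      · have hcs' : c = !s := by cases c <;> cases s <;> simp_all
        have hGc : (fun x => op s (p.eval x) (q.eval x)) = fun _ => !s := by
          funext x
          rw [hc', hcs', op_comm, op_not]
        rw [hGc, L_const] at hmin
        omega
    by_cases hA : p.size = 1 ∧ p.occ v ≠ 0
    · exact lit_case s p q hA.1 hq0 hmin hpm v hA.2
    by_cases hB : q.size = 1 ∧ q.occ v ≠ 0
    · have hcomm : (fun x => op s (p.eval x) (q.eval x)) =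
          fun x => op s (q.eval x) (p.eval x) := by
        funext x
        rw [op_comm]
      have := lit_case s q p hB.1 hp0 (by rw [← hcomm]; omega) hqm v hB.2
      rw [hcomm]
      omega
    have hP : L (rs (fun x => p.eval x) v false) + L (rs (fun x => p.eval x) v true) +
        3 * p.occ v ≤ 2 * p.size := by
      by_cases h : 2 ≤ p.size
      · exact hp hpm h
      · have h1 := rs_le p v false
        have h3 := rs_le p v true
        have h4 : p.occ v = 0 := by
          by_contra h5
          exact hA ⟨by omega, h5⟩
        omega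
    have hQ : L (rs (fun x => q.eval x) v false) + L (rs (fun x => q.eval x) v true) +
        3 * q.occ v ≤ 2 * q.size := by
      by_cases h : 2 ≤ q.size
      · exact hq hqm h
      · have h1 := rs_le q v false
        have h3 := rs_le q v true
        have h4 : q.occ v = 0 := by
          by_contra h5
          exact hB ⟨by omega, h5⟩
        omega
    have h1 := hrs false
    have h3 := hrs true
    omega

/-- **Subbotovskaya's inequality.** -/
theorem subb [Fintype ι] (g : BF ι) (hg : ∃ s, FS g s) :
    ∃ c : ι → ℕ, ∑ v, c v = L g ∧ (∀ v b, L (rs g v b) + c v ≤ L g) ∧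
      (2 ≤ L g → ∀ v, L (rs g v false) + L (rs g v true) + 3 * c v ≤ 2 * L g) := by
  obtain ⟨φ, h1, h2⟩ := L_spec hg
  have h3 : g = fun x => φ.eval x := funext fun x => (h2 x).symm
  subst h3
  refine ⟨fun v => φ.occ v, by rw [Fm.sum_occ, h1], fun v b => ?_, fun h v => ?_⟩
  · have := rs_le φ v b
    simp only
    omega
  · have := subb_fm φ h1 (by omega) v
    simp only
    omega

theorem L_sens [Fintype ι] (g : BF ι) (hg : ∃ s, FS g s) (x : ι → Bool) (A : Finset ι)
    (hA : ∀ i ∈ A, g (AC0IP.flip x i) ≠ g x) : A.card ≤ L g := by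
  obtain ⟨φ, h1, h2⟩ := L_spec hg
  have h3 : ∀ i ∈ A, 1 ≤ φ.occ i := by
    intro i hi
    by_contra h0
    apply hA i hi
    rw [← h2, ← h2]
    apply Fm.eval_congr
    intro w hw
    unfold AC0IP.flip
    by_cases h : w = i
    · subst h; exact absurd (by omega) h0
    · rw [Function.update_of_ne h]
  calc A.card = ∑ _i ∈ A, 1 := by simp
    _ ≤ ∑ i ∈ A, φ.occ i := Finset.sum_le_sum h3
    _ ≤ ∑ i, φ.occ i := Finset.sum_le_sum_of_subset (Finset.subset_univ A)
    _ = L g := by rw [Fm.sum_occ, h1]

end Pool.Agent.FIP
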