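import Pool.Agent.Lib.FIP.Proc

/-!
# The tail bound for the sensitivity of small formulas
-/

set_option autoImplicit false

namespace Pool.Agent.FIP

open Pool.Agent.AC0IP

variable {ι : Type} [Fintype ι] [DecidableEq ι]

/-- Tail bound for a single function. -/
theorem tail_one (g : BF ι) (S : ℕ) (hg : FS g S) (l h r : ℕ) (hl : 1 ≤ l) (hh : 3 ≤ h)
    (hr : h ≤ r) (hrn : r ≤ Fintype.card ι) (hlr : 3 + 5 * l * h ≤ r) (θ φ : ℝ) (hθ : 0 < θ)
    (hS : Real.exp 2 * ((S : ℝ) ^ 2 * r) ≤ θ ^ 2 * (Fintype.card ι : ℝ) ^ 3)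
    (A : Finset (ι → Bool)) (hA : ∀ x ∈ A, ∃ J : Finset ι, φ * Fintype.card ι ≤ J.card ∧
      ∀ i ∈ J, g (AC0IP.flip x i) ≠ g x) :
    (A.card : ℝ) * (φ - 4 / h * Real.log (1 + S) - θ) ≤
      2 ^ Fintype.card ι * Real.exp (-l) := by
  classical
  set n := Fintype.card ι with hn
  have hr1 : 1 ≤ r := by omega
  have hn1 : 1 ≤ n := by omega
  have hn0 : (0 : ℝ) < n := by exact_mod_cast (by omega : 0 < n)
  have hr0 : (0 : ℝ) < r := by exact_mod_cast (by omega : 0 < r)
  have hl0 : (0 : ℝ) < l := by exact_mod_cast (by omega : 0 < l)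
  have hh0 : (0 : ℝ) < h := by exact_mod_cast (by omega : 0 < h)
  obtain ⟨t, ht⟩ : ∃ t, n = r + t := ⟨n - r, by omega⟩
  have hcu : (Finset.univ : Finset ι).card = r + t := by rw [Finset.card_univ, ← hn, ht]
  set Ψ : Finset ι → (ι → Bool) → ℝ := fun N x => W l h N.card (L (res g N x)) with hΨ
  set K : ℝ := ((r : ℝ) / θ ^ 2) ^ l * Real.exp ((3 * l + 5 * l ^ 2 * h) / r) with hK
  have hK0 : 0 ≤ K := by positivity
  have hres : ∀ x, res g Finset.univ x = g := by
    intro x
    funext z
    unfold res
    congr 1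
    funext i
    simp
  have hLS : (L g : ℝ) ≤ S := by exact_mod_cast L_le hg
  have hkey : ∀ x ∈ A, φ - 4 / h * Real.log (1 + S) - θ ≤
      K * EE g h Ψ t Finset.univ x := by
    intro x hx
    obtain ⟨J, hJ1, hJ2⟩ := hA x hx
    have h1 := EE_frac g ⟨S, hg⟩ h r (by omega) hr1 J x t Finset.univ hcu
    rw [hres, Finset.inter_univ, Finset.card_univ, ← hn] at h1
    have h2 : φ ≤ (J.card : ℝ) / n := by
      rw [le_div_iff₀ hn0]
      exact hJ1
    have h3 : 4 / (h : ℝ) * Real.log (1 + L g) ≤ 4 / h * Real.log (1 + S) := by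
      apply mul_le_mul_of_nonneg_left _ (by positivity)
      apply Real.log_le_log (by positivity)
      linarith
    have h4 : EE g h (fun N _ => ((J ∩ N).card : ℝ) / N.card) t Finset.univ x ≤
        EE g h (fun N x => θ + K * Ψ N x) t Finset.univ x := by
      apply EE_mono g h r _ _ x _ t Finset.univ hcu
      intro N hN
      simp only [hΨ, hN]
      have h5 : (J ∩ N).card ≤ L (res g N x) := by
        apply L_sens (res g N x) ⟨S, FS_res hg N x⟩ x
        intro i hi
        have hiN := (Finset.mem_inter.1 hi).2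
        have hiJ := (Finset.mem_inter.1 hi).1
        have h6 : res g N x (AC0IP.flip x i) = g (AC0IP.flip x i) := by
          unfold res AC0IP.flip
          congr 1
          funext j
          by_cases hj : j ∈ N
          · simp [hj]
          · have : j ≠ i := fun h => hj (h ▸ hiN)
            simp [hj, this]
        have h7 : res g N x x = g x := by
          unfold res
          congr 1
          funext j
          simp
        rw [h6, h7]
        exact hJ2 i hiJ
      set ell := L (res g N x) with hell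
      have h8 : ((J ∩ N).card : ℝ) / r ≤ 1 := by
        rw [div_le_one hr0]
        have : (J ∩ N).card ≤ N.card := Finset.card_le_card Finset.inter_subset_right
        rw [hN] at this
        exact_mod_cast this
      have hW0 := W_nonneg l h r ell
      rcases le_or_gt ((ell : ℝ) / r) θ with h9 | h9
      · have h10 : ((J ∩ N).card : ℝ) / r ≤ (ell : ℝ) / r := by
          gcongr
        have h11 : 0 ≤ K * W l h r ell := mul_nonneg hK0 hW0
        linarith
      · have h12 : (1 : ℝ) ≤ K * W l h r ell := by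
          have h13 : K * W l h r ell = (((ell : ℝ) / r / θ) ^ 2) ^ l := by
            rw [hK]
            unfold W
            have h14 : ((r : ℝ) / θ ^ 2) ^ l * Real.exp ((3 * l + 5 * l ^ 2 * h) / r) *
                (((ell : ℝ) ^ 2 / (r : ℝ) ^ 3) ^ l *
                  Real.exp (-(3 * l + 5 * l ^ 2 * h) / r)) =
                ((r : ℝ) / θ ^ 2 * ((ell : ℝ) ^ 2 / (r : ℝ) ^ 3)) ^ l *
                (Real.exp ((3 * l + 5 * l ^ 2 * h) / r) *
                  Real.exp (-(3 * l + 5 * l ^ 2 * h) / r)) := by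
              rw [mul_pow]; ring
            rw [h14, ← Real.exp_add]
            have h15 : (3 * (l : ℝ) + 5 * l ^ 2 * h) / r + -(3 * l + 5 * l ^ 2 * h) / r = 0 := by
              ring
            rw [h15, Real.exp_zero, mul_one]
            congr 1
            field_simp
          rw [h13]
          apply one_le_pow₀
          apply one_le_pow₀
          rw [one_le_div hθ]
          exact h9.le
        linarith
    have h16 := EE_add_mul g h r hr1 θ K Ψ x t Finset.univ hcu
    rw [h16] at h4
    linarith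
  have hsumEE : ∑ x : ι → Bool, EE g h Ψ t Finset.univ x ≤
      2 ^ n * W l h n (L g) := by
    have h1 := EE_W g ⟨S, hg⟩ l h r hl hh hr t Finset.univ (fun _ => true) hcu
    rw [hres, Finset.card_univ, ← hn] at h1
    refine le_trans (le_of_eq ?_) h1
    apply Finset.sum_congr rfl
    intro y _
    congr 1
    funext i
    simp [mix]
  have hEE0 : ∀ x, 0 ≤ EE g h Ψ t Finset.univ x := by
    intro x
    have h1 : EE g h (fun _ _ => 0 + 0 * Ψ ∅ x) t Finset.univ x ≤ EE g h Ψ t Finset.univ x := by
      apply EE_mono g h r _ _ x _ t Finset.univ hcu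
      intro N _
      rw [zero_mul, zero_add]
      exact W_nonneg _ _ _ _
    have h2 := EE_add_mul g h r hr1 0 0 (fun _ _ => Ψ ∅ x) x t Finset.univ hcu
    rw [h2] at h1
    simpa using h1
  calc (A.card : ℝ) * (φ - 4 / h * Real.log (1 + S) - θ)
      = ∑ _x ∈ A, (φ - 4 / h * Real.log (1 + S) - θ) := by
        rw [Finset.sum_const, nsmul_eq_mul]
    _ ≤ ∑ x ∈ A, K * EE g h Ψ t Finset.univ x := Finset.sum_le_sum hkey
    _ ≤ ∑ x, K * EE g h Ψ t Finset.univ x := by
        apply Finset.sum_le_sum_of_subset_of_nonneg (Finset.subset_univ A)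
        intro x _ _
        exact mul_nonneg hK0 (hEE0 x)
    _ = K * ∑ x, EE g h Ψ t Finset.univ x := by rw [Finset.mul_sum]
    _ ≤ K * (2 ^ n * W l h n (L g)) := by gcongr
    _ = 2 ^ n * (K * W l h n (L g)) := by ring
    _ ≤ 2 ^ n * Real.exp (-l) := by
        gcongr
        have h1 : W l h n (L g) ≤ ((S : ℝ) ^ 2 / (n : ℝ) ^ 3) ^ l := by
          unfold W
          have h2 : Real.exp (-(3 * l + 5 * l ^ 2 * h) / n) ≤ 1 := by
            rw [Real.exp_le_one_iff]
            apply div_nonpos_of_nonpos_of_nonneg _ hn0.le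
            have : (0 : ℝ) ≤ 3 * l + 5 * l ^ 2 * h := by positivity
            linarith
          calc (((L g : ℝ)) ^ 2 / (n : ℝ) ^ 3) ^ l * Real.exp (-(3 * l + 5 * l ^ 2 * h) / n)
              ≤ (((L g : ℝ)) ^ 2 / (n : ℝ) ^ 3) ^ l * 1 := by gcongr
            _ = (((L g : ℝ)) ^ 2 / (n : ℝ) ^ 3) ^ l := mul_one _
            _ ≤ _ := by gcongr
        have h3 : Real.exp ((3 * l + 5 * l ^ 2 * h) / r) ≤ Real.exp l := by
          apply Real.exp_le_exp.2
          rw [div_le_iff₀ hr0]
          have h4 : (3 : ℝ) + 5 * l * h ≤ r := by exact_mod_cast hlr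
          nlinarith
        calc K * W l h n (L g)
            ≤ (((r : ℝ) / θ ^ 2) ^ l * Real.exp l) * ((S : ℝ) ^ 2 / (n : ℝ) ^ 3) ^ l := by
              rw [hK]
              exact mul_le_mul (mul_le_mul_of_nonneg_left h3 (by positivity)) h1
                (W_nonneg _ _ _ _) (by positivity)
          _ = ((r : ℝ) / θ ^ 2 * ((S : ℝ) ^ 2 / (n : ℝ) ^ 3)) ^ l * Real.exp l := by
              rw [mul_pow]; ring
          _ ≤ (Real.exp (-2)) ^ l * Real.exp l := by
              gcongr
              have h5 : (r : ℝ) / θ ^ 2 * ((S : ℝ) ^ 2 / (n : ℝ) ^ 3) =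
                  ((S : ℝ) ^ 2 * r) / (θ ^ 2 * (n : ℝ) ^ 3) := by
                field_simp
              rw [h5, div_le_iff₀ (by positivity), Real.exp_neg]
              rw [← div_eq_inv_mul, le_div_iff₀ (Real.exp_pos 2), mul_comm]
              exact hS
          _ = Real.exp (-l) := by
              rw [← Real.exp_nat_mul, ← Real.exp_add]
              congr 1
              ring

end Pool.Agent.FIP
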