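import Pool.Agent.Lib.FIP.Joint

/-!
# Protocols for SAT and for arbitrary languages
-/

set_option autoImplicit false

namespace Pool.Agent.FIP

open Pool.Agent.AC0IP

/-- a verifier without coins and messages -/
private abbrev sv {ι : Type} (n : ℕ) (verd : List Bool → BF ι) : Verifier ι where
  Coin := Unit
  Pub := Unit
  len := n
  pub := fun _ _ => ()
  ask := fun _ _ _ => false
  verdict := fun _ h => verd h

private theorem sv_run {ι : Type} (n : ℕ) (verd : List Bool → BF ι) (y : ℕ → Bool)
    (x : ι → Bool) (k : ℕ) :
    ((sv n verd).run (fun m => y (m.length - 1)) () x k).1.length = k ∧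
      ((sv n verd).run (fun m => y (m.length - 1)) () x k).2 =
        ((List.range k).map y).reverse := by
  induction k with
  | zero => exact ⟨rfl, rfl⟩
  | succ k ih =>
    obtain ⟨h1, h2⟩ := ih
    set R := (sv n verd).run (fun m => y (m.length - 1)) () x k with hR
    constructor
    · change (((), false) :: R.1).length = k + 1
      rw [List.length_cons, h1]
    · change y ((((), false) :: R.1).length - 1) :: R.2 = _
      rw [List.length_cons, h1, h2, List.range_succ, List.map_append, List.reverse_append]
      simp

private theorem sv_acc {ι : Type} (n : ℕ) (verd : List Bool → BF ι) (P : (sv n verd).Prover)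
    (x : ι → Bool) :
    (sv n verd).accProb P x = if (sv n verd).accepts P () x = true then 1 else 0 := by
  unfold Verifier.accProb
  have hc : Nat.card (sv n verd).Coin = 1 := by
    change Nat.card Unit = 1
    simp
  rw [hc]
  split_ifs with h
  · have : Nat.card {ω : (sv n verd).Coin // (sv n verd).accepts P ω x = true} = 1 := by
      have : Unique {ω : (sv n verd).Coin // (sv n verd).accepts P ω x = true} :=
        { default := ⟨(), h⟩
          uniq := fun a => Subtype.ext rfl }
      exact Nat.card_unique
    rw [this]
    norm_num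
  · have : Nat.card {ω : (sv n verd).Coin // (sv n verd).accepts P ω x = true} = 0 := by
      have : IsEmpty {ω : (sv n verd).Coin // (sv n verd).accepts P ω x = true} :=
        ⟨fun a => h a.2⟩
      exact Nat.card_of_isEmpty
    rw [this]
    norm_num

/-- the word given by a list of answers -/
private def wd {n : ℕ} (h : List Bool) (i : Fin n) : Bool := h.reverse.getD i false

private theorem wd_run {n : ℕ} (y : ℕ → Bool) (i : Fin n) :
    wd (((List.range n).map y).reverse) i = y i := by
  unfold wd
  rw [List.reverse_reverse, List.getD_eq_getElem?_getD, List.getElem?_map,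
    List.getElem?_range i.2]
  rfl

private theorem sv_decides {ι : Type} (n : ℕ) (verd : List Bool → BF ι) (L : Set (ι → Bool))
    (h1 : ∀ x ∈ L, ∃ y : ℕ → Bool, verd (((List.range n).map y).reverse) x = true)
    (h2 : ∀ x ∉ L, ∀ h, verd h x = false) :
    (sv n verd).Decides Set.univ L 1 0 := by
  constructor
  · intro x hx
    obtain ⟨y, hy⟩ := h1 x hx
    refine ⟨fun m => y (m.length - 1), Set.mem_univ _, ?_⟩
    rw [sv_acc, if_pos]
    change verd ((sv n verd).run (fun m => y (m.length - 1)) () x n).2 x = true
    rw [(sv_run n verd y x n).2]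
    exact hy
  · intro x hx P _
    rw [sv_acc, if_neg]
    change ¬ verd _ x = true
    rw [h2 x hx]
    exact Bool.false_ne_true


/-- Conjunction of the literals `x i = b i`, `i ∈ A`. -/
theorem FS_lits {ι : Type} (A : Finset ι) (b : ι → Bool) (f : BF ι)
    (hf : ∀ x, f x = true ↔ ∀ i ∈ A, x i = b i) : ∃ φ : Fm ι, φ.size ≤ A.card ∧
      ∀ x, φ.eval x = f x := by
  classical
  have h1 := FS_conj (fun i x => x i) (fun _ => 1)
    (fun i => ⟨Fm.lit i true, le_rfl, fun x => by simp [Fm.eval]⟩) b A
  obtain ⟨φ, h2, h3⟩ := h1
  refine ⟨φ, by simpa using h2, fun x => ?_⟩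
  rw [h3, Bool.eq_iff_iff, cj_true, hf]

theorem small_of {ι : Type} (n S : ℕ) (verd : List Bool → BF ι)
    (h : ∀ hist, ∃ φ : Fm ι, φ.size ≤ S ∧ ∀ x, φ.eval x = verd hist x) :
    FormulaSmall (sv n verd) S := by
  choose ψ h1 h2 using h
  refine ⟨fun _ _ => Fm.const false, fun _ hist => ψ hist, fun _ _ _ => rfl,
    fun _ hist x => h2 hist x, fun _ hist _ => ?_⟩
  simp only [Fm.size, Finset.sum_const_zero, add_zero]
  exact h1 hist

theorem upper_sat (k v : ℕ) : ∃ V : Verifier (Clause k v), V.len = v ∧ FormulaSmall V (v ^ k) ∧
    V.Decides Set.univ (SAT k v) 1 0 := by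
  classical
  set verd : List Bool → BF (Clause k v) := fun h z =>
    decide (∀ cl : Clause k v, z cl = true → ∃ j, wd h (cl j).1 = (cl j).2) with hverd
  refine ⟨sv v verd, rfl, ?_, ?_⟩
  · apply small_of
    intro hist
    set A : Finset (Clause k v) :=
      Finset.univ.filter (fun cl => ∀ j, wd hist (cl j).1 ≠ (cl j).2) with hA
    obtain ⟨φ, h1, h2⟩ := FS_lits A (fun _ => false) (verd hist) (by
      intro z
      rw [hverd]
      simp only [decide_eq_true_iff, hA, Finset.mem_filter, Finset.mem_univ, true_and]
      constructor
      · intro h1 cl hcl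
        by_contra h2
        obtain ⟨j, hj⟩ := h1 cl (by simpa using h2)
        exact hcl j hj
      · intro h1 cl hcl
        by_contra h2
        push Not at h2
        have h3 := h1 cl h2
        rw [hcl] at h3
        exact absurd h3 (by decide))
    refine ⟨φ, h1.trans ?_, h2⟩
    have h3 : A ⊆ Finset.image
        (fun (i : Fin k → Fin v) (j : Fin k) => (i j, !(wd hist (i j)))) Finset.univ := by
      intro cl hcl
      rw [Finset.mem_image]
      refine ⟨fun j => (cl j).1, Finset.mem_univ _, ?_⟩
      funext j
      have h4 := (Finset.mem_filter.1 hcl).2 j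
      apply Prod.ext
      · rfl
      · simp only
        cases hw : wd hist (cl j).1 <;> cases hc : (cl j).2 <;> simp_all
    refine (Finset.card_le_card h3).trans (Finset.card_image_le.trans ?_)
    rw [Finset.card_univ, Fintype.card_fun, Fintype.card_fin, Fintype.card_fin]
  · refine sv_decides v verd _ ?_ ?_
    · rintro z ⟨y, hy⟩
      refine ⟨fun n => if hn : n < v then y ⟨n, hn⟩ else false, ?_⟩
      rw [hverd]
      simp only [decide_eq_true_iff]
      intro cl hcl
      obtain ⟨j, hj⟩ := hy cl hcl
      refine ⟨j, ?_⟩
      rw [wd_run, dif_pos (cl j).1.2]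
      exact hj
    · intro z hz h
      rw [hverd]
      simp only [decide_eq_false_iff_not]
      intro h1
      exact hz ⟨wd h, h1⟩

theorem upper_all (ι : Type) [Fintype ι] (L : Set (ι → Bool)) :
    ∃ V : Verifier ι, V.len = Fintype.card ι ∧ FormulaSmall V (Fintype.card ι) ∧
      V.Decides Set.univ L 1 0 := by
  classical
  set e := Fintype.equivFin ι with he
  set verd : List Bool → BF ι := fun h x =>
    decide ((fun i => wd h (e i)) ∈ L ∧ ∀ i, x i = wd h (e i)) with hverd
  refine ⟨sv (Fintype.card ι) verd, rfl, ?_, ?_⟩
  · apply small_of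
    intro hist
    by_cases hL : (fun i => wd hist (e i)) ∈ L
    · obtain ⟨φ, h1, h2⟩ := FS_lits (Finset.univ : Finset ι) (fun i => wd hist (e i))
        (verd hist) (by
        intro x
        rw [hverd]
        simp only [decide_eq_true_iff, Finset.mem_univ, true_imp_iff]
        exact ⟨fun h => h.2, fun h => ⟨hL, h⟩⟩)
      exact ⟨φ, by simpa using h1, h2⟩
    · refine ⟨Fm.const false, Nat.zero_le _, fun x => ?_⟩
      change false = decide _
      symm
      rw [decide_eq_false_iff_not]
      exact fun h1 => hL h1.1
  · refine sv_decides _ verd _ ?_ ?_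
    · intro x hx
      refine ⟨fun k => if hk : k < Fintype.card ι then x (e.symm ⟨k, hk⟩) else false, ?_⟩
      rw [hverd]
      simp only [decide_eq_true_iff]
      have h1 : ∀ i, wd (((List.range (Fintype.card ι)).map
          (fun k => if hk : k < Fintype.card ι then x (e.symm ⟨k, hk⟩) else false)).reverse)
          (e i) = x i := by
        intro i
        rw [wd_run, dif_pos (e i).2]
        simp
      refine ⟨?_, fun i => (h1 i).symm⟩
      have h2 := funext h1
      rw [h2]
      exact hx
    · intro x hx h
      rw [hverd]
      simp only [decide_eq_false_iff_not]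
      rintro ⟨h1, h2⟩
      apply hx
      have h3 : x = fun i => wd h (e i) := funext h2
      rw [h3]
      exact h1

end Pool.Agent.FIP
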